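import Mathlib

/-!
# Classes of finitely generated algebras of characteristic `p` with formal properties
-/

set_option autoImplicit false

namespace Pool.Agent.Helper29.CQ

open TensorProduct Polynomial

/-- Classes of finitely generated `𝔽_p`-algebras with the formal properties of the class of those
`A` for which the motive with compact support of `Spec A` belongs to the thick tensor triangulated
category generated by the motives of curves and the Tate objects. -/
structure FormalClass (p : ℕ) (P : ∀ (A : Type) [CommRing A], Prop) : Prop where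
  /-- the members are finitely generated -/
  ft : ∀ (A : Type) [CommRing A], P A → Algebra.FiniteType ℤ A
  /-- the members have characteristic `p` (or are zero) -/
  char : ∀ (A : Type) [CommRing A], P A → (p : A) = 0
  /-- rings of dimension at most one -/
  curve : ∀ (A : Type) [CommRing A], Algebra.FiniteType ℤ A → (p : A) = 0 →
    ringKrullDim A ≤ 1 → P A
  /-- isomorphisms -/
  iso : ∀ (A B : Type) [CommRing A] [CommRing B], (A ≃+* B) → P A → P B
  /-- products -/
  tensor : ∀ (A B : Type) [CommRing A] [CommRing B], P A → P B → P (A ⊗[ℤ] B)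
  /-- cut and paste -/
  glue : ∀ (A : Type) [CommRing A] (f : A), Algebra.FiniteType ℤ A → (p : A) = 0 →
    P (A ⧸ Ideal.span {f}) → P (Localization.Away f) → P A
  /-- cut and paste -/
  closed : ∀ (A : Type) [CommRing A] (f : A), P A → P (Localization.Away f) →
    P (A ⧸ Ideal.span {f})
  /-- cut and paste -/
  opn : ∀ (A : Type) [CommRing A] (f : A), P A → P (A ⧸ Ideal.span {f}) →
    P (Localization.Away f)
  /-- direct factors -/
  summand : ∀ (A : Type) [CommRing A] (f : A), f * f = f → P A → P (A ⧸ Ideal.span {f})
  /-- affine lines -/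
  poly : ∀ (A : Type) [CommRing A], P A → P (Polynomial A)
  /-- transfer for nonzero finite free algebras -/
  transfer : ∀ (A B : Type) [CommRing A] [CommRing B] [Nontrivial B] [Algebra A B]
    [Module.Free A B] [Module.Finite A B], Algebra.FiniteType ℤ A → P B → P A
  /-- untwisting: `Spec A[z, v] / (a z ^ n - v (1 - v))` is the quotient by the roots of unity of
  the product of `w ^ n = a` and the curve `u ^ n = v (1 - v)` -/
  twist : ∀ (A : Type) [CommRing A] (a : A) (n : ℕ), IsUnit a → ¬ p ∣ n →
    P (AdjoinRoot (C (C a * X ^ n) - X * (1 - X) : Polynomial (Polynomial A))) →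
    P (AdjoinRoot (X ^ n - C a : Polynomial A))

/-- The ring `k[x, y, w] / (w ^ n - f(x, y))`. -/
abbrev Cyc {k : Type} [Field k] (n : ℕ) (f : MvPolynomial (Fin 2) k) : Type :=
  AdjoinRoot (X ^ n - C f : Polynomial (MvPolynomial (Fin 2) k))

/-- The ring `k[x, y, z, v] / (f(x, y) z ^ n - v (1 - v))`. -/
abbrev Thr {k : Type} [Field k] (n : ℕ) (f : MvPolynomial (Fin 2) k) : Type :=
  AdjoinRoot (C (C f * X ^ n) - X * (1 - X) : Polynomial (Polynomial (MvPolynomial (Fin 2) k)))

/-- The polynomial `f` depends on one variable only, up to a linear change of variables over the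
`k`-algebra `K`: it is invariant under the translations with the direction `(q₀, q₁) ≠ 0`. -/
def Cyl {k : Type} [Field k] (K : Type) [Field K] [Algebra k K] (f : MvPolynomial (Fin 2) k) :
    Prop :=
  ∃ q : Fin 2 → K, q ≠ 0 ∧ ∀ (R : Type) [CommRing R] [Algebra K R] [Algebra k R]
    [IsScalarTower k K R] (x : Fin 2 → R) (t : R),
    MvPolynomial.aeval (fun i => x i + t * algebraMap K R (q i)) f = MvPolynomial.aeval x f

end Pool.Agent.Helper29.CQ
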