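import Pool.Agent.Helper29.CQ.Disc
import Pool.Agent.Helper71.CQ.GeoSing
import Pool.Agent.Helper9.CQ.Thr
import Pool.Agent.Helper67.CQ.Z2

/-!
# Cyclic covers of the plane branched along a quartic
-/

set_option autoImplicit false

namespace Pool.Agent.Helper29.CQ

open Pool.Agent.Helper65.CC Pool.Agent.Helper87.CC Polynomial

/-- **The geometric theorem.** -/
theorem geo_main {K : Type} [Field K] [IsAlgClosed K] (h2 : (2 : K) ≠ 0)
    {G : ∀ (R : Type) [CommRing R] [Algebra K R], Prop} (hG : GOps K G) (c : ℕ → ℕ → K)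
    (hinf : (BC (bin4 (lead c) (X : K[X]) 1)).Mem G) (hcyl : ¬ Cyl' c) : (V c).Mem G := by
  by_cases hs : ∃ p, Sing c p
  · obtain ⟨p, hp⟩ := hs
    exact Pool.Agent.Helper71.CQ.geo_sing h2 hG c hinf hcyl p hp
  · rcases Pool.Agent.Helper71.CQ.decomp h2 c with hs' | ⟨q, q', l, l', hl, hF⟩
    · exact absurd hs' hs
    · exact geo_split hG h2 c q q' l l' hl hF hinf hs

/-- **Cyclic covers of the plane branched along a quartic curve and the line at infinity.** -/
theorem cyclic_quartics {p : ℕ} (hp : p.Prime) (hp2 : p ≠ 2)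
    {P : ∀ (A : Type) [CommRing A], Prop} (hP : FormalClass p P) (k : Type) [Field k] [Finite k]
    [CharP k p] (f : MvPolynomial (Fin 2) k) (hf : f.totalDegree ≤ 4) (n : ℕ) (hn : 0 < n) :
    P (Cyc n f) :=
  Pool.Agent.Helper67.CQ.reduction hp hP (fun k _ _ _ f hf hcyl n hn =>
    Pool.Agent.Helper9.CQ.Thr.thr_mem (fun _ _ _ _ h2 hG c hinf hcyl => geo_main h2 hG c hinf hcyl)
      hp hp2 hP k f hf hcyl n hn) k f hf n hn

end Pool.Agent.Helper29.CQ
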