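import Pool.Agent.Helper29.CQ.Plane

/-!
# Correspondences of bidegree `(2, 2)`
-/

set_option autoImplicit false

namespace Pool.Agent.Helper29.CQ

open Pool.Agent.Helper65.CC Pool.Agent.Helper87.CC Pool.Agent.Helper65.CC.KFn
open Polynomial

variable {K : Type} [Field K] {G : ∀ (R : Type) [CommRing R] [Algebra K R], Prop}

/-- the zeros of a quadratic polynomial -/
def quad1 (a b c : K) : KFn K :=
  (A1 K).cls ⟨fun {R} _ _ x => algebraMap K R a * (show R from x) ^ 2 +
    algebraMap K R b * (show R from x) + algebraMap K R c, fun f x => by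
    simp only [map_add, map_mul, map_pow, AlgHom.commutes]
    rfl⟩

theorem mem_quad1 [IsAlgClosed K] (hG : GOps K G) (a b c : K) : (quad1 a b c).Mem G := by
  let f : MvPolynomial (Fin 1) K := MvPolynomial.C a * MvPolynomial.X 0 ^ 2 +
    MvPolynomial.C b * MvPolynomial.X 0 + MvPolynomial.C c
  have hf : f.totalDegree ≤ 2 := by
    refine deg_add (deg_add ?_ ?_) (deg_C _)
    · exact deg_mul (a := 0) (deg_C _) (deg_X2 _) le_rfl
    · exact deg_mul (a := 0) (deg_C _) (deg_X _) (by norm_num)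
  have h1 := quadrics hG.toKOps hG.one 1 (∅ : Set (MvPolynomial (Fin 1) K)) f
    (fun l hl => hl.elim) hf
  have hev : ∀ (R : Type) [CommRing R] [Algebra K R] (x : Fin 1 → R),
      MvPolynomial.aeval x f = algebraMap K R a * x 0 ^ 2 + algebraMap K R b * x 0 +
        algebraMap K R c := by
    intro R _ _ x
    simp only [f, map_add, map_mul, map_pow, MvPolynomial.aeval_X, MvPolynomial.algHom_C]
  refine Mem.of_iso ?_ h1
  exact
    { hom := fun {R} _ _ x => ⟨(Algebra.ofId K R, fun _ => x.1), by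
        intro l hl
        rcases Set.mem_insert_iff.1 hl with rfl | hl
        · rw [hev]
          exact x.2
        · exact hl.elim⟩
      inv := fun {R} _ _ x => ⟨x.1.2 0, by
        have := x.2 f (Set.mem_insert _ _)
        rw [hev] at this
        exact this⟩
      inv_hom := fun x => rfl
      hom_inv := fun {R} _ _ x => by
        apply Subtype.ext
        refine Prod.ext (Subsingleton.elim _ _) ?_
        funext i
        rw [Subsingleton.elim i 0]
      nat := fun {R S} _ _ _ _ f x => by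
        apply Subtype.ext
        exact Prod.ext (Subsingleton.elim _ _) rfl }

/-- the curve `a(t) x ^ 2 + b(t) x + c(t) = 0` with the coordinates `t, x` -/
noncomputable def Gam (a b c : K[X]) : KFn K :=
  (A2 K).cls ⟨fun x => aeval x.1 a * x.2 ^ 2 + aeval x.1 b * x.2 + aeval x.1 c, fun f x => by
    simp only [map_add, map_mul, map_pow, ← aeval_algHom_apply]
    rfl⟩

noncomputable instance (a b c : K[X]) : Rp (Gam a b c) := by
  unfold Gam
  infer_instance

/-- the coordinate -/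
noncomputable def Gam.t (a b c : K[X]) : Coord (Gam a b c) := ⟨fun x => x.1.1, fun _ _ => rfl⟩

theorem Gam.fib [IsAlgClosed K] (hG : GOps K G) (a b c : K[X]) (s : K) :
    ((Gam a b c).cls (subC (Gam.t a b c) s)).Mem G := by
  refine Mem.of_iso (F' := quad1 (a.eval s) (b.eval s) (c.eval s)) ?_ (mem_quad1 hG _ _ _)
  exact
    { hom := fun {R} _ _ x => ⟨x.1.1.2, by
        have h1 : x.1.1.1 - algebraMap K R s = 0 := x.2
        have h2 : aeval x.1.1.1 a * x.1.1.2 ^ 2 + aeval x.1.1.1 b * x.1.1.2 + aeval x.1.1.1 c = 0 :=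
          x.1.2
        rw [sub_eq_zero.1 h1, aeval_algebraMap_apply, coe_aeval_eq_eval, aeval_algebraMap_apply,
          coe_aeval_eq_eval, aeval_algebraMap_apply, coe_aeval_eq_eval] at h2
        exact h2⟩
      inv := fun {R} _ _ y => ⟨⟨(algebraMap K R s, y.1), by
        change aeval (algebraMap K R s) a * (show R from y.1) ^ 2 +
          aeval (algebraMap K R s) b * (show R from y.1) + aeval (algebraMap K R s) c = 0
        rw [aeval_algebraMap_apply, coe_aeval_eq_eval, aeval_algebraMap_apply,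
          coe_aeval_eq_eval, aeval_algebraMap_apply, coe_aeval_eq_eval]
        exact y.2⟩, sub_self _⟩
      inv_hom := fun {R} _ _ x => by
        have h1 : x.1.1.1 - algebraMap K R s = 0 := x.2
        exact Subtype.ext (Subtype.ext (Prod.ext (sub_eq_zero.1 h1).symm rfl))
      hom_inv := fun _ => rfl
      nat := fun _ _ => rfl }

/-- the curve and its discriminant double cover -/
noncomputable def Gam.iso (h2 : (2 : K) ≠ 0) (a b c : K[X]) :
    Iso ((Gam a b c).opn (polyC (Gam.t a b c) a))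
      ((BC (b ^ 2 - 4 * a * c)).opn (polyC (BC.x (b ^ 2 - 4 * a * c)) a)) where
  hom {R} _ _ x := ⟨⟨(x.1.1.1, 2 * aeval x.1.1.1 a * x.1.1.2 + aeval x.1.1.1 b), by
    have h1 : aeval x.1.1.1 a * x.1.1.2 ^ 2 + aeval x.1.1.1 b * x.1.1.2 + aeval x.1.1.1 c = 0 :=
      x.1.2
    change (2 * aeval x.1.1.1 a * x.1.1.2 + aeval x.1.1.1 b) ^ 2 -
      aeval x.1.1.1 (b ^ 2 - 4 * a * c) = 0
    simp only [map_sub, map_mul, map_pow, map_ofNat]
    linear_combination 4 * aeval x.1.1.1 a * h1⟩, x.2⟩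
  inv {R} _ _ y := ⟨⟨(y.1.1.1, (y.1.1.2 - aeval y.1.1.1 b) *
      Ring.inverse (algebraMap K R 2 * aeval y.1.1.1 a)), by
    have h0 : IsUnit (aeval y.1.1.1 a) := y.2
    have h1 : y.1.1.2 ^ 2 - aeval y.1.1.1 (b ^ 2 - 4 * a * c) = 0 := y.1.2
    simp only [map_sub, map_mul, map_pow, map_ofNat] at h1
    have h3 : IsUnit (algebraMap K R 2 * aeval y.1.1.1 a) := (unit_const h2).mul h0
    have hw := mul_inv' h3
    have h4 : IsUnit (4 * aeval y.1.1.1 a) := by
      have h5 : (4 : R) * aeval y.1.1.1 a = algebraMap K R 2 * (algebraMap K R 2 *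
          aeval y.1.1.1 a) := by
        rw [map_ofNat]
        ring
      rw [h5]
      exact (unit_const h2).mul h3
    set w := Ring.inverse (algebraMap K R 2 * aeval y.1.1.1 a)
    rw [map_ofNat] at hw
    change aeval y.1.1.1 a * ((y.1.1.2 - aeval y.1.1.1 b) * w) ^ 2 +
      aeval y.1.1.1 b * ((y.1.1.2 - aeval y.1.1.1 b) * w) + aeval y.1.1.1 c = 0
    have h6 : (4 * aeval y.1.1.1 a) * (aeval y.1.1.1 a * ((y.1.1.2 - aeval y.1.1.1 b) * w) ^ 2 +
      aeval y.1.1.1 b * ((y.1.1.2 - aeval y.1.1.1 b) * w) + aeval y.1.1.1 c) = 0 := by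
      linear_combination ((y.1.1.2 - aeval y.1.1.1 b) ^ 2 * (2 * aeval y.1.1.1 a * w + 1) +
        2 * aeval y.1.1.1 b * (y.1.1.2 - aeval y.1.1.1 b)) * hw + h1
    exact (h4.mul_right_eq_zero).1 h6⟩, y.2⟩
  inv_hom {R} _ _ x := by
    have h0 : IsUnit (aeval x.1.1.1 a) := x.2
    have h3 : IsUnit (algebraMap K R 2 * aeval x.1.1.1 a) := (unit_const h2).mul h0
    have hw := mul_inv' h3
    refine Subtype.ext (Subtype.ext (Prod.ext rfl ?_))
    change (2 * aeval x.1.1.1 a * x.1.1.2 + aeval x.1.1.1 b - aeval x.1.1.1 b) *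
      Ring.inverse (algebraMap K R 2 * aeval x.1.1.1 a) = x.1.1.2
    set w := Ring.inverse (algebraMap K R 2 * aeval x.1.1.1 a)
    rw [map_ofNat] at hw
    linear_combination x.1.1.2 * hw
  hom_inv {R} _ _ y := by
    have h0 : IsUnit (aeval y.1.1.1 a) := y.2
    have h3 : IsUnit (algebraMap K R 2 * aeval y.1.1.1 a) := (unit_const h2).mul h0
    have hw := mul_inv' h3
    refine Subtype.ext (Subtype.ext (Prod.ext rfl ?_))
    change 2 * aeval y.1.1.1 a * ((y.1.1.2 - aeval y.1.1.1 b) *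
      Ring.inverse (algebraMap K R 2 * aeval y.1.1.1 a)) + aeval y.1.1.1 b = y.1.1.2
    set w := Ring.inverse (algebraMap K R 2 * aeval y.1.1.1 a)
    rw [map_ofNat] at hw
    linear_combination (y.1.1.2 - aeval y.1.1.1 b) * hw
  nat {R S} _ _ _ _ f x := by
    refine Subtype.ext (Subtype.ext (Prod.ext rfl ?_))
    change f (2 * aeval x.1.1.1 a * x.1.1.2 + aeval x.1.1.1 b) =
      2 * aeval (f x.1.1.1) a * f x.1.1.2 + aeval (f x.1.1.1) b
    simp only [map_add, map_mul, map_ofNat, ← aeval_algHom_apply]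

theorem Gam.of_disc [IsAlgClosed K] (hG : GOps K G) (h2 : (2 : K) ≠ 0) {a b c : K[X]}
    (ha : a ≠ 0) (H : (BC (b ^ 2 - 4 * a * c)).Mem G) : (Gam a b c).Mem G :=
  mem_fibres hG.toKOps _ _ (Gam.t a b c) a ha rfl (Gam.fib hG a b c)
    (Mem.of_iso (Gam.iso h2 a b c) (BC.opn hG _ a ha H))

theorem Gam.disc [IsAlgClosed K] (hG : GOps K G) (h2 : (2 : K) ≠ 0) {a b c : K[X]}
    (ha : a ≠ 0) (H : (Gam a b c).Mem G) : (BC (b ^ 2 - 4 * a * c)).Mem G :=
  BC.of_opn hG _ a ha (Mem.of_iso (Gam.iso h2 a b c).symm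
    (mem_opn_poly hG.toKOps _ (Gam.t a b c) a ha H (Gam.fib hG a b c)))

/-- exchanging the two coordinates -/
noncomputable def Gam.swap {a b c a' b' c' : K[X]}
    (h : ∀ (R : Type) [CommRing R] [Algebra K R] (t x : R),
      aeval t a * x ^ 2 + aeval t b * x + aeval t c =
        aeval x a' * t ^ 2 + aeval x b' * t + aeval x c') : Iso (Gam a b c) (Gam a' b' c') where
  hom {R} _ _ x := ⟨(x.1.2, x.1.1), (h R _ _).symm.trans x.2⟩
  inv {R} _ _ y := ⟨(y.1.2, y.1.1), (h R _ _).trans y.2⟩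
  inv_hom _ := rfl
  hom_inv _ := rfl
  nat _ _ := rfl

/-- **The two discriminants of a `(2, 2)`-form.** -/
theorem BC.corr [IsAlgClosed K] (hG : GOps K G) (h2 : (2 : K) ≠ 0) {a b c a' b' c' : K[X]}
    (h : ∀ (R : Type) [CommRing R] [Algebra K R] (t x : R),
      aeval t a * x ^ 2 + aeval t b * x + aeval t c =
        aeval x a' * t ^ 2 + aeval x b' * t + aeval x c')
    (ha : a ≠ 0) (ha' : a' ≠ 0) (H : (BC (b' ^ 2 - 4 * a' * c')).Mem G) :
    (BC (b ^ 2 - 4 * a * c)).Mem G :=
  Gam.disc hG h2 ha (Mem.of_iso (Gam.swap h) (Gam.of_disc hG h2 ha' H))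

end Pool.Agent.Helper29.CQ
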