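import Mathlib

/-!
# Linear, quadratic and quartic forms with explicit coefficients
-/

set_option autoImplicit false

namespace Pool.Agent.Helper29.CQ

variable {K : Type} [Field K] {R : Type} [CommRing R] [Algebra K R]

/-- linear forms in three variables -/
def lf (l : Fin 3 → K) (x y z : R) : R :=
  algebraMap K R (l 0) * x + algebraMap K R (l 1) * y + algebraMap K R (l 2) * z

/-- quadratic forms in three variables -/
def qf (q : Fin 6 → K) (x y z : R) : R :=
  algebraMap K R (q 0) * x ^ 2 + algebraMap K R (q 1) * (x * y) + algebraMap K R (q 2) * y ^ 2 +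
    algebraMap K R (q 3) * (x * z) + algebraMap K R (q 4) * (y * z) + algebraMap K R (q 5) * z ^ 2

/-- quartic forms in three variables -/
def F4 (c : ℕ → ℕ → K) (x y z : R) : R :=
  algebraMap K R (c 0 0) * z ^ 4 + algebraMap K R (c 1 0) * x * z ^ 3 +
    algebraMap K R (c 0 1) * y * z ^ 3 + algebraMap K R (c 2 0) * x ^ 2 * z ^ 2 +
    algebraMap K R (c 1 1) * x * y * z ^ 2 + algebraMap K R (c 0 2) * y ^ 2 * z ^ 2 +
    algebraMap K R (c 3 0) * x ^ 3 * z + algebraMap K R (c 2 1) * x ^ 2 * y * z +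
    algebraMap K R (c 1 2) * x * y ^ 2 * z + algebraMap K R (c 0 3) * y ^ 3 * z +
    algebraMap K R (c 4 0) * x ^ 4 + algebraMap K R (c 3 1) * x ^ 3 * y +
    algebraMap K R (c 2 2) * x ^ 2 * y ^ 2 + algebraMap K R (c 1 3) * x * y ^ 3 +
    algebraMap K R (c 0 4) * y ^ 4

/-- the point `p` is a singular zero of the quartic form with the coefficients `c` -/
def Sing (c : ℕ → ℕ → K) (p : Fin 3 → K) : Prop :=
  p ≠ 0 ∧ ∀ v : Fin 3 → K, ∃ r : Polynomial K, ∀ t : K,
    F4 c (p 0 + t * v 0) (p 1 + t * v 1) (p 2 + t * v 2) = t ^ 2 * r.eval t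

end Pool.Agent.Helper29.CQ
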