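import Pool.Agent.Helper29.CQ.Plane

/-!
# Conic bundles over the line
-/

set_option autoImplicit false

namespace Pool.Agent.Helper29.CQ

open Pool.Agent.Helper65.CC Pool.Agent.Helper87.CC Pool.Agent.Helper65.CC.KFn
open Polynomial

variable {K : Type} [Field K] {G : ∀ (R : Type) [CommRing R] [Algebra K R], Prop}

/-- the equation of a conic -/
def con {R : Type} [CommRing R] (a b c d e g x y : R) : R :=
  a * x ^ 2 + b * (x * y) + c * y ^ 2 + d * x + e * y + g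

/-- the coefficient of the normal form -/
def nor {R : Type} [CommRing R] (a b c d e g : R) : R :=
  g * (b ^ 2 - 4 * a * c) + c * d ^ 2 + a * e ^ 2 - b * d * e

section Alg

variable {R : Type} [CommRing R]

theorem alg1 (a b c d e g x y m : R) (hm : m ^ 2 - (b ^ 2 - 4 * a * c) = 0)
    (hq : con a b c d e g x y = 0) :
    (2 * a * ((b ^ 2 - 4 * a * c) * x - (2 * c * d - b * e)) +
      (b + m) * ((b ^ 2 - 4 * a * c) * y - (2 * a * e - b * d))) *
    (2 * a * ((b ^ 2 - 4 * a * c) * x - (2 * c * d - b * e)) +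
      (b - m) * ((b ^ 2 - 4 * a * c) * y - (2 * a * e - b * d))) -
      (-4 * a * nor a b c d e g * (b ^ 2 - 4 * a * c)) = 0 := by
  unfold con at hq
  unfold nor
  linear_combination 4 * a * (b ^ 2 - 4 * a * c) ^ 2 * hq -
    ((b ^ 2 - 4 * a * c) * y - (2 * a * e - b * d)) ^ 2 * hm

theorem alg2 (a b c d e g x y m u w : R) (hm : m ^ 2 - (b ^ 2 - 4 * a * c) = 0)
    (hx : (b ^ 2 - 4 * a * c) * x = u + (2 * c * d - b * e))
    (hy : (b ^ 2 - 4 * a * c) * y = w + (2 * a * e - b * d))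
    (h : (2 * a * u + (b + m) * w) * (2 * a * u + (b - m) * w) -
      (-4 * a * nor a b c d e g * (b ^ 2 - 4 * a * c)) = 0) :
    4 * a * (b ^ 2 - 4 * a * c) ^ 2 * con a b c d e g x y = 0 := by
  have h1 := alg1 a b c d e g x y m hm
  have hu : u = (b ^ 2 - 4 * a * c) * x - (2 * c * d - b * e) := by rw [hx]; ring
  have hw : w = (b ^ 2 - 4 * a * c) * y - (2 * a * e - b * d) := by rw [hy]; ring
  subst hu hw
  unfold con
  unfold nor at h
  linear_combination h + ((b ^ 2 - 4 * a * c) * y - (2 * a * e - b * d)) ^ 2 * hm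

/-- the first coordinate of the split form -/
def xi (a b c d e D m x y : R) : R :=
  2 * a * (D * x - (2 * c * d - b * e)) + (b + m) * (D * y - (2 * a * e - b * d))

/-- the second coordinate of the split form -/
def eta (a b c d e D m x y : R) : R :=
  2 * a * (D * x - (2 * c * d - b * e)) + (b - m) * (D * y - (2 * a * e - b * d))

/-- auxiliary -/
def iw (m δ s u v : R) : R := (u - v) * (m * δ * s)

/-- the inverse map -/
def ix (a b c d e m δ s α u v : R) : R :=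
  ((u - (b + m) * iw m δ s u v) * (s * α) + (2 * c * d - b * e)) * δ

/-- the inverse map -/
def iy (a b d e m δ s u v : R) : R := (iw m δ s u v + (2 * a * e - b * d)) * δ

theorem D_ix (a b c d e D m δ s α u v : R) (hδ : D * δ = 1) :
    D * ix a b c d e m δ s α u v = (u - (b + m) * iw m δ s u v) * (s * α) +
      (2 * c * d - b * e) := by
  unfold ix
  linear_combination ((u - (b + m) * iw m δ s u v) * (s * α) + (2 * c * d - b * e)) * hδ

theorem D_iy (a b d e D m δ s u v : R) (hδ : D * δ = 1) :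
    D * iy a b d e m δ s u v = iw m δ s u v + (2 * a * e - b * d) := by
  unfold iy
  linear_combination (iw m δ s u v + (2 * a * e - b * d)) * hδ

theorem two_iw (D m δ s u v : R) (hs : 2 * s = 1) (hδ : D * δ = 1)
    (hm : m ^ 2 - D = 0) : 2 * m * iw m δ s u v = u - v := by
  unfold iw
  linear_combination (u - v) * m ^ 2 * δ * hs + (u - v) * δ * hm + (u - v) * hδ

theorem xi_inv (a b c d e D m δ s α u v : R) (hs : 2 * s = 1) (hα : a * α = 1)
    (hδ : D * δ = 1) :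
    xi a b c d e D m (ix a b c d e m δ s α u v) (iy a b d e m δ s u v) = u := by
  unfold xi
  rw [D_ix _ _ _ _ _ _ _ _ _ _ _ _ hδ, D_iy _ _ _ _ _ _ _ _ _ _ hδ]
  linear_combination (u - (b + m) * iw m δ s u v) * a * α * hs +
    (u - (b + m) * iw m δ s u v) * hα

theorem eta_inv (a b c d e D m δ s α u v : R) (hs : 2 * s = 1) (hα : a * α = 1)
    (hδ : D * δ = 1) (hm : m ^ 2 - D = 0) :
    eta a b c d e D m (ix a b c d e m δ s α u v) (iy a b d e m δ s u v) = v := by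
  unfold eta
  rw [D_ix _ _ _ _ _ _ _ _ _ _ _ _ hδ, D_iy _ _ _ _ _ _ _ _ _ _ hδ]
  have h1 := two_iw D m δ s u v hs hδ hm
  linear_combination (u - (b + m) * iw m δ s u v) * a * α * hs +
    (u - (b + m) * iw m δ s u v) * hα - h1

theorem iw_eq (a b c d e D m δ s x y : R) (hs : 2 * s = 1) (hδ : D * δ = 1)
    (hm : m ^ 2 - D = 0) :
    iw m δ s (xi a b c d e D m x y) (eta a b c d e D m x y) = D * y - (2 * a * e - b * d) := by
  unfold iw xi eta
  linear_combination (D * y - (2 * a * e - b * d)) * m ^ 2 * δ * hs +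
    (D * y - (2 * a * e - b * d)) * δ * hm + (D * y - (2 * a * e - b * d)) * hδ

theorem iy_eq (a b c d e D m δ s x y : R) (hs : 2 * s = 1) (hδ : D * δ = 1)
    (hm : m ^ 2 - D = 0) :
    iy a b d e m δ s (xi a b c d e D m x y) (eta a b c d e D m x y) = y := by
  unfold iy
  rw [iw_eq _ _ _ _ _ _ _ _ _ _ _ hs hδ hm]
  linear_combination y * hδ

theorem ix_eq (a b c d e D m δ s α x y : R) (hs : 2 * s = 1) (hα : a * α = 1)
    (hδ : D * δ = 1) (hm : m ^ 2 - D = 0) :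
    ix a b c d e m δ s α (xi a b c d e D m x y) (eta a b c d e D m x y) = x := by
  unfold ix
  rw [iw_eq _ _ _ _ _ _ _ _ _ _ _ hs hδ hm]
  unfold xi
  linear_combination (D * x - (2 * c * d - b * e)) * δ * a * α * hs +
    (D * x - (2 * c * d - b * e)) * δ * hα + x * hδ

theorem con_inv (a b c d e g D m δ s α u v : R) (hs : 2 * s = 1) (hα : a * α = 1)
    (hδ : D * δ = 1) (hm : m ^ 2 - D = 0) (hD : D = b ^ 2 - 4 * a * c)
    (h : u * v - (-4 * a * nor a b c d e g * D) = 0) :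
    con a b c d e g (ix a b c d e m δ s α u v) (iy a b d e m δ s u v) = 0 := by
  have h1 := xi_inv a b c d e D m δ s α u v hs hα hδ
  have h2 := eta_inv a b c d e D m δ s α u v hs hα hδ hm
  set x := ix a b c d e m δ s α u v
  set y := iy a b d e m δ s u v
  subst hD
  have h3 : 4 * a * (b ^ 2 - 4 * a * c) ^ 2 * con a b c d e g x y = 0 := by
    refine alg2 a b c d e g x y m ((b ^ 2 - 4 * a * c) * x - (2 * c * d - b * e))
      ((b ^ 2 - 4 * a * c) * y - (2 * a * e - b * d)) hm (by ring) (by ring) ?_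
    unfold xi at h1
    unfold eta at h2
    rw [h1, h2]
    exact h
  have h4 : s * s * α * δ ^ 2 * (4 * a * (b ^ 2 - 4 * a * c) ^ 2) = 1 := by
    have e1 : (2 * s) * (2 * s) * (a * α) * ((b ^ 2 - 4 * a * c) * δ) ^ 2 = 1 := by
      rw [hs, hα, hδ]
      ring
    linear_combination e1
  calc con a b c d e g x y = (s * s * α * δ ^ 2 * (4 * a * (b ^ 2 - 4 * a * c) ^ 2)) *
        con a b c d e g x y := by rw [h4, one_mul]
    _ = s * s * α * δ ^ 2 * (4 * a * (b ^ 2 - 4 * a * c) ^ 2 * con a b c d e g x y) := by ring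
    _ = 0 := by rw [h3, mul_zero]

theorem xi_eta (a b c d e g D m x y : R) (hm : m ^ 2 - D = 0) (hD : D = b ^ 2 - 4 * a * c)
    (hq : con a b c d e g x y = 0) :
    xi a b c d e D m x y * eta a b c d e D m x y - (-4 * a * nor a b c d e g * D) = 0 := by
  subst hD
  exact alg1 a b c d e g x y m hm hq

end Alg

/-- the family of conics over the line -/
noncomputable def CBf (q : Fin 6 → K[X]) : KFn K :=
  (A3 K).cls ⟨fun x => con (aeval x.1 (q 0)) (aeval x.1 (q 1)) (aeval x.1 (q 2))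
    (aeval x.1 (q 3)) (aeval x.1 (q 4)) (aeval x.1 (q 5)) x.2.1 x.2.2, fun f x => by
    simp only [con, map_add, map_mul, map_pow, ← aeval_algHom_apply]
    rfl⟩

noncomputable instance (q : Fin 6 → K[X]) : Rp (CBf q) := by
  unfold CBf
  infer_instance

/-- the coordinate of the base -/
noncomputable def CBf.t (q : Fin 6 → K[X]) : Coord (CBf q) := ⟨fun x => x.1.1, fun _ _ => rfl⟩

theorem CBf.fib [IsAlgClosed K] (hG : GOps K G) (q : Fin 6 → K[X]) (s : K) :
    ((CBf q).cls (subC (CBf.t q) s)).Mem G := by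
  refine Mem.of_iso (F' := pconic (fun i => (q i).eval s)) ?_ (mem_pconic hG _)
  have key : ∀ (R : Type) [CommRing R] [Algebra K R] (t x y : R), t - algebraMap K R s = 0 →
      con (aeval t (q 0)) (aeval t (q 1)) (aeval t (q 2)) (aeval t (q 3)) (aeval t (q 4))
        (aeval t (q 5)) x y = qf (fun i => (q i).eval s) x y 1 := by
    intro R _ _ t x y h
    rw [sub_eq_zero.1 h]
    simp only [aeval_algebraMap_apply, coe_aeval_eq_eval, con, qf]
    ring
  exact
    { hom := fun {R} _ _ x => ⟨x.1.1.2, (key R _ _ _ x.2).symm.trans x.1.2⟩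
      inv := fun {R} _ _ y => ⟨⟨(algebraMap K R s, y.1), (key R _ _ _ (sub_self _)).trans y.2⟩,
        sub_self _⟩
      inv_hom := fun {R} _ _ x => by
        have h1 : x.1.1.1 - algebraMap K R s = 0 := x.2
        exact Subtype.ext (Subtype.ext (Prod.ext (sub_eq_zero.1 h1).symm rfl))
      hom_inv := fun _ => rfl
      nat := fun _ _ => rfl }

/-- the discriminant of the quadratic part -/
noncomputable def CBf.D (q : Fin 6 → K[X]) : K[X] := q 1 ^ 2 - 4 * q 0 * q 2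

/-- the base of the split bundle -/
noncomputable def CBf.B (q : Fin 6 → K[X]) (h : K[X]) : KFn K :=
  (BC (CBf.D q)).opn (polyC (BC.x _) h)

noncomputable instance (q : Fin 6 → K[X]) (h : K[X]) : Rp (CBf.B q h) := by
  unfold CBf.B
  infer_instance

/-- the right hand side -/
noncomputable def CBf.k (q : Fin 6 → K[X]) : K[X] :=
  -4 * q 0 * nor (q 0) (q 1) (q 2) (q 3) (q 4) (q 5) * CBf.D q

/-- the split bundle `ξ η = κ` -/
noncomputable def CBf.S (q : Fin 6 → K[X]) (h : K[X]) : KFn K :=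
  (CBf.B q h).line.line.cls ⟨fun x => x.1.2 * x.2 - aeval x.1.1.1.1.1 (CBf.k q), fun f x => by
    simp only [map_sub, map_mul, ← aeval_algHom_apply]
    rfl⟩

theorem CBf.aeval_D (q : Fin 6 → K[X]) {R : Type} [CommRing R] [Algebra K R] (t : R) :
    aeval t (CBf.D q) = aeval t (q 1) ^ 2 - 4 * aeval t (q 0) * aeval t (q 2) := by
  simp only [CBf.D, map_sub, map_mul, map_pow, map_ofNat]

theorem CBf.aeval_k (q : Fin 6 → K[X]) {R : Type} [CommRing R] [Algebra K R] (t : R) :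
    aeval t (CBf.k q) = -4 * aeval t (q 0) * nor (aeval t (q 0)) (aeval t (q 1)) (aeval t (q 2))
      (aeval t (q 3)) (aeval t (q 4)) (aeval t (q 5)) *
      (aeval t (q 1) ^ 2 - 4 * aeval t (q 0) * aeval t (q 2)) := by
  simp only [CBf.k, CBf.D, nor, map_sub, map_add, map_mul, map_pow, map_ofNat, map_neg]

theorem CBf.mem_S [IsAlgClosed K] (hG : GOps K G) (q : Fin 6 → K[X]) (h : K[X]) (hh : h ≠ 0)
    (hB : (BC (CBf.D q)).Mem G)
    (hk : CBf.k q = 0 ∨ ∀ (R : Type) [CommRing R] [Algebra K R] (t : R), IsUnit (aeval t h) →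
      IsUnit (aeval t (CBf.k q))) : (CBf.S q h).Mem G := by
  have h1 : (CBf.B q h).Mem G := BC.opn hG _ h hh hB
  have h2 : (CBf.B q h).line.Mem G := Mem.line hG.toKOps h1
  have h3 : ((CBf.B q h).line.opn (CBf.B q h).lineCoord).Mem G :=
    mem_opn hG.toKOps _ h2 (Mem.of_iso (zeroSection _) h1)
  let u : Coord (CBf.S q h) := ⟨fun x => x.1.1.2, fun _ _ => rfl⟩
  refine Mem.glue hG.toKOps u ?_ ?_
  · refine Mem.of_iso ?_ h3
    exact
      { hom := fun {R} _ _ x => ⟨(x.1.1.1.1, x.1.1.1.2), x.2⟩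
        inv := fun {R} _ _ y => ⟨⟨((y.1.1, y.1.2), aeval y.1.1.1.1.1 (CBf.k q) *
            Ring.inverse y.1.2), by
            have h4 := mul_inv' (a := y.1.2) y.2
            change y.1.2 * (aeval y.1.1.1.1.1 (CBf.k q) * Ring.inverse y.1.2) -
              aeval y.1.1.1.1.1 (CBf.k q) = 0
            linear_combination aeval y.1.1.1.1.1 (CBf.k q) * h4⟩, y.2⟩
        inv_hom := fun {R} _ _ x => by
          refine Subtype.ext (Subtype.ext (Prod.ext rfl ?_))
          have h4 := mul_inv' (a := x.1.1.1.2) x.2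
          have h5 : x.1.1.1.2 * x.1.1.2 - aeval x.1.1.1.1.1.1.1 (CBf.k q) = 0 := x.1.2
          change aeval x.1.1.1.1.1.1.1 (CBf.k q) * Ring.inverse x.1.1.1.2 = x.1.1.2
          linear_combination x.1.1.2 * h4 - Ring.inverse x.1.1.1.2 * h5
        hom_inv := fun _ => rfl
        nat := fun _ _ => rfl }
  · rcases hk with hk | hk
    · refine Mem.of_iso (F' := (CBf.B q h).line) ?_ h2
      exact
        { hom := fun {R} _ _ x => (x.1.1.1.1, x.1.1.2)
          inv := fun {R} _ _ y => ⟨⟨((y.1, 0), y.2), by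
            change 0 * y.2 - aeval y.1.1.1.1 (CBf.k q) = 0
            rw [hk, map_zero, zero_mul, sub_zero]⟩, rfl⟩
          inv_hom := fun {R} _ _ x => by
            refine Subtype.ext (Subtype.ext (Prod.ext (Prod.ext rfl ?_) rfl))
            exact x.2.symm
          hom_inv := fun _ => rfl
          nat := fun f x => rfl }
    · refine Mem.of_trivial hG.toKOps fun A _ _ x => ?_
      have h4 : x.1.1.1.2 = 0 := x.2
      have h5 : x.1.1.1.2 * x.1.1.2 - aeval x.1.1.1.1.1.1.1 (CBf.k q) = 0 := x.1.2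
      have h6 := hk A x.1.1.1.1.1.1.1 x.1.1.1.1.2
      rw [h4, zero_mul, zero_sub, neg_eq_zero] at h5
      rw [h5] at h6
      exact subsingleton_of_zero_eq_one (isUnit_zero_iff.1 h6)

/-- the split form of the conic bundle -/
noncomputable def CBf.iso (h2 : (2 : K) ≠ 0) (q : Fin 6 → K[X]) (h : K[X])
    (hu : ∀ (R : Type) [CommRing R] [Algebra K R] (t : R), IsUnit (aeval t h) →
      IsUnit (aeval t (q 0)) ∧ IsUnit (aeval t (CBf.D q))) :
    Iso (dbl ((CBf q).opn (polyC (CBf.t q) h)) (polyC (resO _ (CBf.t q)) (CBf.D q)))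
      (CBf.S q h) where
  hom {R} _ _ x := ⟨((⟨⟨(x.1.1.1.1.1, x.1.2), x.2⟩, x.1.1.2⟩,
    xi (aeval x.1.1.1.1.1 (q 0)) (aeval x.1.1.1.1.1 (q 1)) (aeval x.1.1.1.1.1 (q 2))
      (aeval x.1.1.1.1.1 (q 3)) (aeval x.1.1.1.1.1 (q 4)) (aeval x.1.1.1.1.1 (CBf.D q))
      x.1.2 x.1.1.1.1.2.1 x.1.1.1.1.2.2),
    eta (aeval x.1.1.1.1.1 (q 0)) (aeval x.1.1.1.1.1 (q 1)) (aeval x.1.1.1.1.1 (q 2))
      (aeval x.1.1.1.1.1 (q 3)) (aeval x.1.1.1.1.1 (q 4)) (aeval x.1.1.1.1.1 (CBf.D q))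
      x.1.2 x.1.1.1.1.2.1 x.1.1.1.1.2.2), by
      have hm : x.1.2 ^ 2 - aeval x.1.1.1.1.1 (CBf.D q) = 0 := x.2
      have h1 := xi_eta _ _ _ _ _ _ _ _ _ _ hm (CBf.aeval_D q _) x.1.1.1.2
      rw [CBf.aeval_D] at h1
      rw [← CBf.aeval_k, ← CBf.aeval_D] at h1
      exact h1⟩
  inv {R} _ _ y := ⟨(⟨⟨(y.1.1.1.1.1.1,
      ix (aeval y.1.1.1.1.1.1 (q 0)) (aeval y.1.1.1.1.1.1 (q 1)) (aeval y.1.1.1.1.1.1 (q 2))
        (aeval y.1.1.1.1.1.1 (q 3)) (aeval y.1.1.1.1.1.1 (q 4)) y.1.1.1.1.1.2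
        (Ring.inverse (aeval y.1.1.1.1.1.1 (CBf.D q))) (algebraMap K R 2⁻¹)
        (Ring.inverse (aeval y.1.1.1.1.1.1 (q 0))) y.1.1.2 y.1.2,
      iy (aeval y.1.1.1.1.1.1 (q 0)) (aeval y.1.1.1.1.1.1 (q 1))
        (aeval y.1.1.1.1.1.1 (q 3)) (aeval y.1.1.1.1.1.1 (q 4)) y.1.1.1.1.1.2
        (Ring.inverse (aeval y.1.1.1.1.1.1 (CBf.D q))) (algebraMap K R 2⁻¹) y.1.1.2 y.1.2), by
      have h0 := hu R _ y.1.1.1.2
      refine con_inv _ _ _ _ _ _ _ _ _ _ _ _ _ ?_ (mul_inv' h0.1) (mul_inv' h0.2)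
        y.1.1.1.1.2 (CBf.aeval_D q _) ?_
      · rw [← map_ofNat (algebraMap K R) 2, ← map_mul, mul_inv_cancel₀ h2, map_one]
      · rw [CBf.aeval_D, ← CBf.aeval_k]
        exact y.2⟩, y.1.1.1.2⟩, y.1.1.1.1.1.2), y.1.1.1.1.2⟩
  inv_hom {R} _ _ x := by
    have hs : 2 * algebraMap K R 2⁻¹ = 1 := by
      rw [← map_ofNat (algebraMap K R) 2, ← map_mul, mul_inv_cancel₀ h2, map_one]
    have h0 := hu R _ x.1.1.2
    refine Subtype.ext (Prod.ext (Subtype.ext (Subtype.ext (Prod.ext rfl (Prod.ext ?_ ?_)))) rfl)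
    · exact ix_eq _ _ _ _ _ _ _ _ _ _ _ _ hs (mul_inv' h0.1) (mul_inv' h0.2) x.2
    · exact iy_eq _ _ _ _ _ _ _ _ _ _ _ hs (mul_inv' h0.2) x.2
  hom_inv {R} _ _ y := by
    have hs : 2 * algebraMap K R 2⁻¹ = 1 := by
      rw [← map_ofNat (algebraMap K R) 2, ← map_mul, mul_inv_cancel₀ h2, map_one]
    have h0 := hu R _ y.1.1.1.2
    refine Subtype.ext (Prod.ext (Prod.ext rfl ?_) ?_)
    · exact xi_inv _ _ _ _ _ _ _ _ _ _ _ _ hs (mul_inv' h0.1) (mul_inv' h0.2)
    · exact eta_inv _ _ _ _ _ _ _ _ _ _ _ _ hs (mul_inv' h0.1) (mul_inv' h0.2) y.1.1.1.1.2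
  nat {R S} _ _ _ _ f x := by
    refine Subtype.ext (Prod.ext (Prod.ext rfl ?_) ?_)
    · change f (xi _ _ _ _ _ _ _ _ _) = xi _ _ _ _ _ _ _ _ _
      simp only [xi, map_add, map_sub, map_mul, map_ofNat, ← aeval_algHom_apply]
      rfl
    · change f (eta _ _ _ _ _ _ _ _ _) = eta _ _ _ _ _ _ _ _ _
      simp only [eta, map_add, map_sub, map_mul, map_ofNat, ← aeval_algHom_apply]
      rfl

theorem CBf.mem_aux [IsAlgClosed K] (hG : GOps K G) (h2 : (2 : K) ≠ 0) (q : Fin 6 → K[X])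
    (ha : q 0 ≠ 0) (hD : CBf.D q ≠ 0) (hB : (BC (CBf.D q)).Mem G) : (CBf q).Mem G := by
  by_cases hN : nor (q 0) (q 1) (q 2) (q 3) (q 4) (q 5) = 0
  · refine mem_fibres hG.toKOps _ _ (CBf.t q) (q 0 * CBf.D q) (mul_ne_zero ha hD) rfl
      (CBf.fib hG q) ?_
    refine mem_of_dbl hG (polyC (resO _ (CBf.t q)) (CBf.D q)) (Mem.of_iso (CBf.iso h2 q _ ?_)
      (CBf.mem_S hG q _ (mul_ne_zero ha hD) hB (Or.inl ?_)))
    · intro R _ _ t ht
      rw [map_mul] at ht
      exact ⟨isUnit_of_mul_isUnit_left ht, isUnit_of_mul_isUnit_right ht⟩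
    · unfold CBf.k
      rw [hN]
      ring
  · refine mem_fibres hG.toKOps _ _ (CBf.t q)
      (q 0 * CBf.D q * nor (q 0) (q 1) (q 2) (q 3) (q 4) (q 5))
      (mul_ne_zero (mul_ne_zero ha hD) hN) rfl (CBf.fib hG q) ?_
    refine mem_of_dbl hG (polyC (resO _ (CBf.t q)) (CBf.D q)) (Mem.of_iso (CBf.iso h2 q _ ?_)
      (CBf.mem_S hG q _ (mul_ne_zero (mul_ne_zero ha hD) hN) hB (Or.inr ?_)))
    · intro R _ _ t ht
      rw [map_mul, map_mul] at ht
      have h1 := isUnit_of_mul_isUnit_left ht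
      exact ⟨isUnit_of_mul_isUnit_left h1, isUnit_of_mul_isUnit_right h1⟩
    · intro R _ _ t ht
      have h4 : IsUnit (-algebraMap K R 2 * algebraMap K R 2) :=
        ((unit_const h2).neg).mul (unit_const h2)
      have e1 : aeval t (CBf.k q) = (-algebraMap K R 2 * algebraMap K R 2) *
          aeval t (q 0 * CBf.D q * nor (q 0) (q 1) (q 2) (q 3) (q 4) (q 5)) := by
        unfold CBf.k
        simp only [map_mul, map_neg, map_ofNat]
        ring
      rw [e1]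
      exact h4.mul ht

/-- exchanging the two fibre coordinates -/
noncomputable def CBf.swap (q : Fin 6 → K[X]) :
    Iso (CBf q) (CBf ![q 2, q 1, q 0, q 4, q 3, q 5]) where
  hom {R} _ _ x := ⟨(x.1.1, x.1.2.2, x.1.2.1), by
    have h := x.2
    change con (aeval x.1.1 (q 0)) (aeval x.1.1 (q 1)) (aeval x.1.1 (q 2)) (aeval x.1.1 (q 3))
      (aeval x.1.1 (q 4)) (aeval x.1.1 (q 5)) x.1.2.1 x.1.2.2 = 0 at h
    change con (aeval x.1.1 (q 2)) (aeval x.1.1 (q 1)) (aeval x.1.1 (q 0)) (aeval x.1.1 (q 4))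
      (aeval x.1.1 (q 3)) (aeval x.1.1 (q 5)) x.1.2.2 x.1.2.1 = 0
    unfold con at h ⊢
    linear_combination h⟩
  inv {R} _ _ x := ⟨(x.1.1, x.1.2.2, x.1.2.1), by
    have h := x.2
    change con (aeval x.1.1 (q 2)) (aeval x.1.1 (q 1)) (aeval x.1.1 (q 0)) (aeval x.1.1 (q 4))
      (aeval x.1.1 (q 3)) (aeval x.1.1 (q 5)) x.1.2.1 x.1.2.2 = 0 at h
    change con (aeval x.1.1 (q 0)) (aeval x.1.1 (q 1)) (aeval x.1.1 (q 2)) (aeval x.1.1 (q 3))
      (aeval x.1.1 (q 4)) (aeval x.1.1 (q 5)) x.1.2.2 x.1.2.1 = 0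
    unfold con at h ⊢
    linear_combination h⟩
  inv_hom _ := rfl
  hom_inv _ := rfl
  nat _ _ := rfl

/-- a shear of the fibre coordinates -/
noncomputable def CBf.shear (q : Fin 6 → K[X]) :
    Iso (CBf q) (CBf ![q 0 + q 1 + q 2, q 1 + 2 * q 2, q 2, q 3 + q 4, q 4, q 5]) where
  hom {R} _ _ x := ⟨(x.1.1, x.1.2.1, x.1.2.2 - x.1.2.1), by
    have h := x.2
    change con (aeval x.1.1 (q 0)) (aeval x.1.1 (q 1)) (aeval x.1.1 (q 2)) (aeval x.1.1 (q 3))
      (aeval x.1.1 (q 4)) (aeval x.1.1 (q 5)) x.1.2.1 x.1.2.2 = 0 at h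
    change con (aeval x.1.1 (q 0 + q 1 + q 2)) (aeval x.1.1 (q 1 + 2 * q 2)) (aeval x.1.1 (q 2))
      (aeval x.1.1 (q 3 + q 4)) (aeval x.1.1 (q 4)) (aeval x.1.1 (q 5)) x.1.2.1
      (x.1.2.2 - x.1.2.1) = 0
    unfold con at h ⊢
    simp only [map_add, map_mul, map_ofNat]
    linear_combination h⟩
  inv {R} _ _ x := ⟨(x.1.1, x.1.2.1, x.1.2.2 + x.1.2.1), by
    have h := x.2
    change con (aeval x.1.1 (q 0 + q 1 + q 2)) (aeval x.1.1 (q 1 + 2 * q 2)) (aeval x.1.1 (q 2))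
      (aeval x.1.1 (q 3 + q 4)) (aeval x.1.1 (q 4)) (aeval x.1.1 (q 5)) x.1.2.1 x.1.2.2 = 0 at h
    change con (aeval x.1.1 (q 0)) (aeval x.1.1 (q 1)) (aeval x.1.1 (q 2)) (aeval x.1.1 (q 3))
      (aeval x.1.1 (q 4)) (aeval x.1.1 (q 5)) x.1.2.1 (x.1.2.2 + x.1.2.1) = 0
    unfold con at h ⊢
    simp only [map_add, map_mul, map_ofNat] at h
    linear_combination h⟩
  inv_hom {R} _ _ x := Subtype.ext (Prod.ext rfl (Prod.ext rfl (sub_add_cancel _ _)))
  hom_inv {R} _ _ x := Subtype.ext (Prod.ext rfl (Prod.ext rfl (add_sub_cancel_right _ _)))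
  nat {R S} _ _ _ _ f x := Subtype.ext (Prod.ext rfl (Prod.ext rfl (map_sub f _ _)))

/-- **Conic bundles over the line** are in the class as soon as the discriminant double cover is
in the class. -/
theorem CBf.mem [IsAlgClosed K] (hG : GOps K G) (h2 : (2 : K) ≠ 0) (q : Fin 6 → K[X])
    (hD : q 1 ^ 2 - 4 * q 0 * q 2 ≠ 0) (hB : (BC (q 1 ^ 2 - 4 * q 0 * q 2)).Mem G) :
    (CBf q).Mem G := by
  by_cases h0 : q 0 = 0
  · by_cases hc : q 2 = 0
    · refine Mem.of_iso (CBf.shear q) (CBf.mem_aux hG h2 _ ?_ ?_ ?_)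
      · change q 0 + q 1 + q 2 ≠ 0
        rw [h0, hc, zero_add, add_zero]
        intro h1
        apply hD
        rw [h0, h1]
        ring
      · change (q 1 + 2 * q 2) ^ 2 - 4 * (q 0 + q 1 + q 2) * q 2 ≠ 0
        convert hD using 1
        ring
      · change (BC ((q 1 + 2 * q 2) ^ 2 - 4 * (q 0 + q 1 + q 2) * q 2)).Mem G
        have e1 : (q 1 + 2 * q 2) ^ 2 - 4 * (q 0 + q 1 + q 2) * q 2 =
            q 1 ^ 2 - 4 * q 0 * q 2 := by ring
        rw [e1]
        exact hB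
    · refine Mem.of_iso (CBf.swap q) (CBf.mem_aux hG h2 _ hc ?_ ?_)
      · change q 1 ^ 2 - 4 * q 2 * q 0 ≠ 0
        convert hD using 1
        ring
      · change (BC (q 1 ^ 2 - 4 * q 2 * q 0)).Mem G
        have e1 : q 1 ^ 2 - 4 * q 2 * q 0 = q 1 ^ 2 - 4 * q 0 * q 2 := by ring
        rw [e1]
        exact hB
  · exact CBf.mem_aux hG h2 q h0 hD hB

end Pool.Agent.Helper29.CQ
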