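import Pool.Agent.Helper29.CQ.Fun
import Pool.Agent.Helper29.CQ.Forms
import Pool.Agent.Helper65.CC.Quadric

/-!
# Conic bundles over the line
-/

set_option autoImplicit false

namespace Pool.Agent.Helper29.CQ

open Pool.Agent.Helper65.CC Pool.Agent.Helper87.CC Pool.Agent.Helper65.CC.KFn
open Polynomial

variable {K : Type} [Field K] {G : ∀ (R : Type) [CommRing R] [Algebra K R], Prop}

/-! ### Plane conics -/

/-- the plane conic -/
def pconic (q : Fin 6 → K) : KFn K :=
  (A2 K).cls ⟨fun x => qf q x.1 x.2 1, fun f x => by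
    simp only [qf, map_add, map_mul, map_pow, AlgHom.commutes, map_one]
    rfl⟩

theorem deg_mul {n a b c : ℕ} {p q : MvPolynomial (Fin n) K} (hp : p.totalDegree ≤ a)
    (hq : q.totalDegree ≤ b) (h : a + b ≤ c) : (p * q).totalDegree ≤ c :=
  ((MvPolynomial.totalDegree_mul p q).trans (Nat.add_le_add hp hq)).trans h

theorem deg_add {n c : ℕ} {p q : MvPolynomial (Fin n) K} (hp : p.totalDegree ≤ c)
    (hq : q.totalDegree ≤ c) : (p + q).totalDegree ≤ c :=
  (MvPolynomial.totalDegree_add p q).trans (max_le hp hq)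

theorem deg_C {n c : ℕ} (a : K) : (MvPolynomial.C a : MvPolynomial (Fin n) K).totalDegree ≤ c := by
  rw [MvPolynomial.totalDegree_C]
  exact Nat.zero_le c

theorem deg_X {n : ℕ} (i : Fin n) : (MvPolynomial.X i : MvPolynomial (Fin n) K).totalDegree ≤ 1 := by
  rw [MvPolynomial.totalDegree_X]

theorem deg_X2 {n : ℕ} (i : Fin n) :
    (MvPolynomial.X i ^ 2 : MvPolynomial (Fin n) K).totalDegree ≤ 2 := by
  rw [pow_two]
  exact deg_mul (deg_X i) (deg_X i) le_rfl

/-- **Plane conics are in the class.** -/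
theorem mem_pconic [IsAlgClosed K] (hG : GOps K G) (q : Fin 6 → K) : (pconic q).Mem G := by
  let f : MvPolynomial (Fin 2) K := MvPolynomial.C (q 0) * MvPolynomial.X 0 ^ 2 +
    MvPolynomial.C (q 1) * (MvPolynomial.X 0 * MvPolynomial.X 1) +
    MvPolynomial.C (q 2) * MvPolynomial.X 1 ^ 2 + MvPolynomial.C (q 3) * MvPolynomial.X 0 +
    MvPolynomial.C (q 4) * MvPolynomial.X 1 + MvPolynomial.C (q 5)
  have hf : f.totalDegree ≤ 2 := by
    refine deg_add (deg_add (deg_add (deg_add (deg_add ?_ ?_) ?_) ?_) ?_) (deg_C _)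
    · exact deg_mul (a := 0) (deg_C _) (deg_X2 _) le_rfl
    · exact deg_mul (a := 0) (deg_C _) (deg_mul (deg_X _) (deg_X _) le_rfl) le_rfl
    · exact deg_mul (a := 0) (deg_C _) (deg_X2 _) le_rfl
    · exact deg_mul (a := 0) (deg_C _) (deg_X _) (by norm_num)
    · exact deg_mul (a := 0) (deg_C _) (deg_X _) (by norm_num)
  have h1 := quadrics hG.toKOps hG.one 2 (∅ : Set (MvPolynomial (Fin 2) K)) f
    (fun l hl => hl.elim) hf
  have hev : ∀ (R : Type) [CommRing R] [Algebra K R] (x : Fin 2 → R),
      MvPolynomial.aeval x f = qf q (x 0) (x 1) 1 := by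
    intro R _ _ x
    simp only [f, map_add, map_mul, map_pow, MvPolynomial.aeval_X, MvPolynomial.algHom_C, qf]
    ring
  refine Mem.of_iso ?_ h1
  exact
    { hom := fun {R} _ _ x => ⟨(Algebra.ofId K R, ![x.1.1, x.1.2]), by
        intro l hl
        rcases Set.mem_insert_iff.1 hl with rfl | hl
        · rw [hev]
          exact x.2
        · exact hl.elim⟩
      inv := fun {R} _ _ x => ⟨(x.1.2 0, x.1.2 1), by
        have := x.2 f (Set.mem_insert _ _)
        rw [hev] at this
        exact this⟩
      inv_hom := fun x => rfl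
      hom_inv := fun {R} _ _ x => by
        apply Subtype.ext
        refine Prod.ext (Subsingleton.elim _ _) ?_
        funext i
        fin_cases i <;> rfl
      nat := fun {R S} _ _ _ _ f x => by
        apply Subtype.ext
        refine Prod.ext (Subsingleton.elim _ _) ?_
        funext i
        fin_cases i <;> rfl }

/-! ### Double covers of the line -/

/-- the double cover `u ^ 2 = h(x)` of the line -/
noncomputable def BC (h : K[X]) : KFn K :=
  (A2 K).cls ⟨fun x => x.2 ^ 2 - aeval x.1 h, fun f x => by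
    rw [map_sub, map_pow, ← aeval_algHom_apply]
    rfl⟩

instance (h : K[X]) : Rp (BC h) := by
  unfold BC
  infer_instance

/-- the coordinate on the line -/
noncomputable def BC.x (h : K[X]) : Coord (BC h) := ⟨fun x => x.1.1, fun _ _ => rfl⟩

/-- the scheme of the square roots of `c` -/
def sq (c : K) : KFn K :=
  (A1 K).cls ⟨fun {R} _ _ x => (show R from x) ^ 2 - algebraMap K R c, fun f x => by
    rw [map_sub, map_pow, AlgHom.commutes]
    rfl⟩

theorem mem_sq [IsAlgClosed K] (hG : GOps K G) (c : K) : (sq c).Mem G := by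
  let f : MvPolynomial (Fin 1) K := MvPolynomial.X 0 ^ 2 + MvPolynomial.C (-c)
  have hf : f.totalDegree ≤ 2 := deg_add (deg_X2 _) (deg_C _)
  have h1 := quadrics hG.toKOps hG.one 1 (∅ : Set (MvPolynomial (Fin 1) K)) f
    (fun l hl => hl.elim) hf
  have hev : ∀ (R : Type) [CommRing R] [Algebra K R] (x : Fin 1 → R),
      MvPolynomial.aeval x f = x 0 ^ 2 - algebraMap K R c := by
    intro R _ _ x
    simp only [f, map_add, map_pow, MvPolynomial.aeval_X, MvPolynomial.algHom_C, map_neg]
    ring
  refine Mem.of_iso ?_ h1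
  exact
    { hom := fun {R} _ _ x => ⟨(Algebra.ofId K R, fun _ => x.1), by
        intro l hl
        rcases Set.mem_insert_iff.1 hl with rfl | hl
        · rw [hev]
          exact x.2
        · exact hl.elim⟩
      inv := fun {R} _ _ x => ⟨x.1.2 0, by
        have := x.2 f (Set.mem_insert _ _)
        rw [hev] at this
        exact this⟩
      inv_hom := fun x => rfl
      hom_inv := fun {R} _ _ x => by
        apply Subtype.ext
        refine Prod.ext (Subsingleton.elim _ _) ?_
        funext i
        rw [Subsingleton.elim i 0]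
      nat := fun {R S} _ _ _ _ f x => by
        apply Subtype.ext
        exact Prod.ext (Subsingleton.elim _ _) rfl }

/-- the fibres of a double cover -/
theorem BC.fib [IsAlgClosed K] (hG : GOps K G) (h : K[X]) (a : K) :
    ((BC h).cls (subC (BC.x h) a)).Mem G := by
  refine Mem.of_iso (F' := sq (h.eval a)) ?_ (mem_sq hG _)
  exact
    { hom := fun {R} _ _ x => ⟨x.1.1.2, by
        have h1 : x.1.1.1 - algebraMap K R a = 0 := x.2
        have h2 : x.1.1.2 ^ 2 - aeval x.1.1.1 h = 0 := x.1.2
        rw [sub_eq_zero.1 h1, aeval_algebraMap_apply, coe_aeval_eq_eval] at h2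
        exact h2⟩
      inv := fun {R} _ _ y => ⟨⟨(algebraMap K R a, y.1), by
        change (show R from y.1) ^ 2 - aeval (algebraMap K R a) h = 0
        rw [aeval_algebraMap_apply, coe_aeval_eq_eval]
        exact y.2⟩, sub_self _⟩
      inv_hom := fun {R} _ _ x => by
        have h1 : x.1.1.1 - algebraMap K R a = 0 := x.2
        exact Subtype.ext (Subtype.ext (Prod.ext (sub_eq_zero.1 h1).symm rfl))
      hom_inv := fun _ => rfl
      nat := fun _ _ => rfl }

/-- the double cover of degree at most two -/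
theorem BC.deg_two [IsAlgClosed K] (hG : GOps K G) (h : K[X]) (hh : h.natDegree ≤ 2) :
    (BC h).Mem G := by
  refine Mem.of_iso (F' := pconic ![-h.coeff 2, 0, 1, -h.coeff 1, 0, -h.coeff 0]) ?_
    (mem_pconic hG _)
  have key : ∀ (R : Type) [CommRing R] [Algebra K R] (x y : R),
      qf ![-h.coeff 2, 0, 1, -h.coeff 1, 0, -h.coeff 0] x y 1 = y ^ 2 - aeval x h := by
    intro R _ _ x y
    rw [aeval_eq_sum_range' (Nat.lt_succ_of_le hh)]
    simp only [qf, Finset.sum_range_succ, Finset.sum_range_zero, Algebra.smul_def]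
    simp
    ring
  exact
    { hom := fun {R} _ _ x => ⟨x.1, (key R _ _).trans x.2⟩
      inv := fun {R} _ _ y => ⟨y.1, (key R _ _).symm.trans y.2⟩
      inv_hom := fun _ => rfl
      hom_inv := fun _ => rfl
      nat := fun _ _ => rfl }

/-- a criterion: open parts of double covers -/
theorem BC.of_opn [IsAlgClosed K] (hG : GOps K G) (h g : K[X]) (hg : g ≠ 0)
    (H : ((BC h).opn (polyC (BC.x h) g)).Mem G) : (BC h).Mem G :=
  mem_fibres hG.toKOps _ (BC h) (BC.x h) g hg rfl (BC.fib hG h) H

theorem BC.opn [IsAlgClosed K] (hG : GOps K G) (h g : K[X]) (hg : g ≠ 0)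
    (H : (BC h).Mem G) : ((BC h).opn (polyC (BC.x h) g)).Mem G :=
  mem_opn_poly hG.toKOps (BC h) (BC.x h) g hg H (BC.fib hG h)

end Pool.Agent.Helper29.CQ
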