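import Pool.Agent.Helper29.CQ.Conic

/-!
# Double covers of the line and correspondences
-/

set_option autoImplicit false

namespace Pool.Agent.Helper29.CQ

open Pool.Agent.Helper65.CC Pool.Agent.Helper87.CC Pool.Agent.Helper65.CC.KFn
open Polynomial

variable {K : Type} [Field K] {G : ∀ (R : Type) [CommRing R] [Algebra K R], Prop}

theorem mul_inv' {R : Type} [CommRing R] {a : R} (h : IsUnit a) : a * Ring.inverse a = 1 :=
  Ring.mul_inverse_cancel a h

/-- multiplication of the branch polynomial by a nonzero constant -/
theorem BC.smul [IsAlgClosed K] {h : K[X]} (c : K) (hc : c ≠ 0) (H : (BC h).Mem G) :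
    (BC (C c * h)).Mem G := by
  obtain ⟨s, hs⟩ := IsAlgClosed.exists_pow_nat_eq c (n := 2) two_pos
  have hs0 : s ≠ 0 := by
    rintro rfl
    apply hc
    rw [← hs]
    ring
  have e1 : ∀ (R : Type) [CommRing R] [Algebra K R],
      algebraMap K R s * algebraMap K R s⁻¹ = 1 := fun R _ _ => by
    rw [← map_mul, mul_inv_cancel₀ hs0, map_one]
  have e2 : ∀ (R : Type) [CommRing R] [Algebra K R],
      algebraMap K R c = algebraMap K R s ^ 2 := fun R _ _ => by rw [← map_pow, hs]
  refine Mem.of_iso (F' := BC h) ?_ H
  exact
    { hom := fun {R} _ _ x => ⟨(x.1.1, algebraMap K R s⁻¹ * x.1.2), by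
        have h1 : x.1.2 ^ 2 - aeval x.1.1 (C c * h) = 0 := x.2
        rw [map_mul, aeval_C, e2] at h1
        change (algebraMap K R s⁻¹ * x.1.2) ^ 2 - aeval x.1.1 h = 0
        have h2 := e1 R
        linear_combination (algebraMap K R s⁻¹) ^ 2 * h1 + aeval x.1.1 h *
          (algebraMap K R s * algebraMap K R s⁻¹ + 1) * h2⟩
      inv := fun {R} _ _ y => ⟨(y.1.1, algebraMap K R s * y.1.2), by
        have h1 : y.1.2 ^ 2 - aeval y.1.1 h = 0 := y.2
        change (algebraMap K R s * y.1.2) ^ 2 - aeval y.1.1 (C c * h) = 0
        rw [map_mul, aeval_C, e2]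
        linear_combination (algebraMap K R s) ^ 2 * h1⟩
      inv_hom := fun {R} _ _ x => Subtype.ext (Prod.ext rfl (by
        change algebraMap K R s * (algebraMap K R s⁻¹ * x.1.2) = x.1.2
        rw [← mul_assoc, e1, one_mul]))
      hom_inv := fun {R} _ _ y => Subtype.ext (Prod.ext rfl (by
        change algebraMap K R s⁻¹ * (algebraMap K R s * y.1.2) = y.1.2
        rw [← mul_assoc, mul_comm (algebraMap K R s⁻¹), e1, one_mul]))
      nat := fun f x => Subtype.ext (Prod.ext rfl (by
        change f (algebraMap K _ s⁻¹ * x.1.2) = algebraMap K _ s⁻¹ * f x.1.2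
        rw [map_mul, AlgHom.commutes])) }

/-- square factors of the branch polynomial -/
theorem BC.sq_mul [IsAlgClosed K] (hG : GOps K G) {h : K[X]} (g : K[X]) (hg : g ≠ 0)
    (H : (BC h).Mem G) : (BC (g ^ 2 * h)).Mem G := by
  refine BC.of_opn hG _ g hg ?_
  refine Mem.of_iso (F' := (BC h).opn (polyC (BC.x h) g)) ?_ (BC.opn hG h g hg H)
  exact
    { hom := fun {R} _ _ x => ⟨⟨(x.1.1.1, Ring.inverse (aeval x.1.1.1 g) * x.1.1.2), by
        have h0 : IsUnit (aeval x.1.1.1 g) := x.2
        have h1 : x.1.1.2 ^ 2 - aeval x.1.1.1 (g ^ 2 * h) = 0 := x.1.2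
        rw [map_mul, map_pow] at h1
        have h2 := mul_inv' h0
        change (Ring.inverse (aeval x.1.1.1 g) * x.1.1.2) ^ 2 - aeval x.1.1.1 h = 0
        linear_combination (Ring.inverse (aeval x.1.1.1 g)) ^ 2 * h1 + aeval x.1.1.1 h *
          (aeval x.1.1.1 g * Ring.inverse (aeval x.1.1.1 g) + 1) * h2⟩, x.2⟩
      inv := fun {R} _ _ y => ⟨⟨(y.1.1.1, aeval y.1.1.1 g * y.1.1.2), by
        have h1 : y.1.1.2 ^ 2 - aeval y.1.1.1 h = 0 := y.1.2
        change (aeval y.1.1.1 g * y.1.1.2) ^ 2 - aeval y.1.1.1 (g ^ 2 * h) = 0
        rw [map_mul, map_pow]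
        linear_combination (aeval y.1.1.1 g) ^ 2 * h1⟩, y.2⟩
      inv_hom := fun {R} _ _ x => Subtype.ext (Subtype.ext (Prod.ext rfl (by
        have h0 : IsUnit (aeval x.1.1.1 g) := x.2
        change aeval x.1.1.1 g * (Ring.inverse (aeval x.1.1.1 g) * x.1.1.2) = x.1.1.2
        rw [← mul_assoc, mul_inv' h0, one_mul])))
      hom_inv := fun {R} _ _ y => Subtype.ext (Subtype.ext (Prod.ext rfl (by
        have h0 : IsUnit (aeval y.1.1.1 g) := y.2
        change Ring.inverse (aeval y.1.1.1 g) * (aeval y.1.1.1 g * y.1.1.2) = y.1.1.2
        rw [← mul_assoc, mul_comm (Ring.inverse _), mul_inv' h0, one_mul])))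
      nat := fun f x => Subtype.ext (Subtype.ext (Prod.ext rfl (by
        have h0 : IsUnit (aeval x.1.1.1 g) := x.2
        change f (Ring.inverse (aeval x.1.1.1 g) * x.1.1.2) =
          Ring.inverse (aeval (f x.1.1.1) g) * f x.1.1.2
        rw [map_mul, inv_nat f h0, ← aeval_algHom_apply]))) }

theorem BC.square [IsAlgClosed K] (hG : GOps K G) (g : K[X]) : (BC (g ^ 2)).Mem G := by
  by_cases hg : g = 0
  · subst hg
    refine BC.deg_two hG _ ?_
    simp
  · have h1 := BC.sq_mul hG (h := 1) g hg (BC.deg_two hG _ (by simp))
    rwa [mul_one] at h1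

/-! ### Binary quartic forms -/

/-- binary quartic forms -/
def bin4 {R : Type} [CommRing R] [Algebra K R] (a : Fin 5 → K) (x y : R) : R :=
  algebraMap K R (a 0) * y ^ 4 + algebraMap K R (a 1) * (x * y ^ 3) +
    algebraMap K R (a 2) * (x ^ 2 * y ^ 2) + algebraMap K R (a 3) * (x ^ 3 * y) +
    algebraMap K R (a 4) * x ^ 4

theorem bin4_map {R S : Type} [CommRing R] [Algebra K R] [CommRing S] [Algebra K S]
    (a : Fin 5 → K) (f : R →ₐ[K] S) (x y : R) : f (bin4 a x y) = bin4 a (f x) (f y) := by
  simp [bin4]

theorem bin4_smul {R : Type} [CommRing R] [Algebra K R] (a : Fin 5 → K) (c x y : R) :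
    bin4 a (c * x) (c * y) = c ^ 4 * bin4 a x y := by
  simp only [bin4]
  ring

/-- change of the coordinate on the projective line -/
theorem BC.moebius [IsAlgClosed K] (hG : GOps K G) (a : Fin 5 → K) (α β γ δ : K)
    (hdet : α * δ - β * γ ≠ 0) (H : (BC (bin4 a (X : K[X]) 1)).Mem G) :
    (BC (bin4 a (C α * X + C β) (C γ * X + C δ))).Mem G := by
  have hg : (C γ * X + C δ : K[X]) ≠ 0 := by
    intro h
    have h1 := congrArg (fun p => coeff p 1) h
    have h2 := congrArg (fun p => coeff p 0) h
    simp at h1 h2
    apply hdet
    rw [h1, h2]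
    ring
  have hg' : (C α - C γ * X : K[X]) ≠ 0 := by
    intro h
    have h1 := congrArg (fun p => coeff p 1) h
    have h2 := congrArg (fun p => coeff p 0) h
    simp at h1 h2
    apply hdet
    rw [h1, h2]
    ring
  refine BC.of_opn hG _ _ hg ?_
  refine Mem.of_iso (F' := (BC (bin4 a (X : K[X]) 1)).opn (polyC (BC.x _) (C α - C γ * X))) ?_
    (BC.opn hG _ _ hg' H)
  have hD : ∀ (R : Type) [CommRing R] [Algebra K R],
      IsUnit (algebraMap K R α * algebraMap K R δ - algebraMap K R β * algebraMap K R γ) := by
    intro R _ _
    rw [← map_mul, ← map_mul, ← map_sub]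
    exact unit_const hdet
  have ev1 : ∀ (R : Type) [CommRing R] [Algebra K R] (x : R), aeval x (C γ * X + C δ : K[X]) =
      algebraMap K R γ * x + algebraMap K R δ := by
    intro R _ _ x
    simp
  have ev2 : ∀ (R : Type) [CommRing R] [Algebra K R] (x : R), aeval x (C α - C γ * X : K[X]) =
      algebraMap K R α - algebraMap K R γ * x := by
    intro R _ _ x
    simp
  have ev3 : ∀ (R : Type) [CommRing R] [Algebra K R] (x : R),
      aeval x (bin4 a (C α * X + C β) (C γ * X + C δ) : K[X]) =
      bin4 a (algebraMap K R α * x + algebraMap K R β) (algebraMap K R γ * x + algebraMap K R δ) := by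
    intro R _ _ x
    rw [bin4_map]
    simp
  have ev4 : ∀ (R : Type) [CommRing R] [Algebra K R] (x : R),
      aeval x (bin4 a (X : K[X]) 1) = bin4 a x 1 := by
    intro R _ _ x
    rw [bin4_map]
    simp
  exact
    { hom := fun {R} _ _ x => ⟨⟨((algebraMap K R α * x.1.1.1 + algebraMap K R β) *
          Ring.inverse (algebraMap K R γ * x.1.1.1 + algebraMap K R δ),
          Ring.inverse (algebraMap K R γ * x.1.1.1 + algebraMap K R δ) ^ 2 * x.1.1.2), by
          have h0 : IsUnit (aeval x.1.1.1 (C γ * X + C δ : K[X])) := x.2
          have h1 : x.1.1.2 ^ 2 - aeval x.1.1.1 (bin4 a (C α * X + C β) (C γ * X + C δ) : K[X]) = 0 :=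
            x.1.2
          rw [ev1] at h0
          rw [ev3] at h1
          have hw := mul_inv' h0
          set w := Ring.inverse (algebraMap K R γ * x.1.1.1 + algebraMap K R δ)
          change (w ^ 2 * x.1.1.2) ^ 2 - aeval ((algebraMap K R α * x.1.1.1 + algebraMap K R β) * w)
            (bin4 a (X : K[X]) 1) = 0
          rw [ev4]
          have h2 := bin4_smul a w (algebraMap K R α * x.1.1.1 + algebraMap K R β)
            (algebraMap K R γ * x.1.1.1 + algebraMap K R δ)
          rw [mul_comm w (algebraMap K R γ * x.1.1.1 + algebraMap K R δ), hw,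
            mul_comm w (algebraMap K R α * x.1.1.1 + algebraMap K R β)] at h2
          rw [h2]
          linear_combination w ^ 4 * h1⟩, by
          have h0 : IsUnit (aeval x.1.1.1 (C γ * X + C δ : K[X])) := x.2
          rw [ev1] at h0
          have hw := mul_inv' h0
          set w := Ring.inverse (algebraMap K R γ * x.1.1.1 + algebraMap K R δ)
          change IsUnit (aeval ((algebraMap K R α * x.1.1.1 + algebraMap K R β) * w)
            (C α - C γ * X : K[X]))
          rw [ev2]
          have h3 : algebraMap K R α - algebraMap K R γ * ((algebraMap K R α * x.1.1.1 +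
              algebraMap K R β) * w) = (algebraMap K R α * algebraMap K R δ -
                algebraMap K R β * algebraMap K R γ) * w := by
            linear_combination (-algebraMap K R α) * hw
          rw [h3]
          exact (hD R).mul (IsUnit.of_mul_eq_one _ ((mul_comm _ _).trans hw))⟩
      inv := fun {R} _ _ y => ⟨⟨((algebraMap K R δ * y.1.1.1 - algebraMap K R β) *
          Ring.inverse (algebraMap K R α - algebraMap K R γ * y.1.1.1),
          ((algebraMap K R α * algebraMap K R δ - algebraMap K R β * algebraMap K R γ) *
          Ring.inverse (algebraMap K R α - algebraMap K R γ * y.1.1.1)) ^ 2 * y.1.1.2), by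
          have h0 : IsUnit (aeval y.1.1.1 (C α - C γ * X : K[X])) := y.2
          have h1 : y.1.1.2 ^ 2 - aeval y.1.1.1 (bin4 a (X : K[X]) 1) = 0 := y.1.2
          rw [ev2] at h0
          rw [ev4] at h1
          have hw := mul_inv' h0
          set w := Ring.inverse (algebraMap K R α - algebraMap K R γ * y.1.1.1)
          set D := algebraMap K R α * algebraMap K R δ - algebraMap K R β * algebraMap K R γ with hDD
          change ((D * w) ^ 2 * y.1.1.2) ^ 2 -
            aeval ((algebraMap K R δ * y.1.1.1 - algebraMap K R β) * w)
            (bin4 a (C α * X + C β) (C γ * X + C δ) : K[X]) = 0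
          rw [ev3]
          have e1 : algebraMap K R α * ((algebraMap K R δ * y.1.1.1 - algebraMap K R β) * w) +
              algebraMap K R β = D * w * y.1.1.1 := by
            rw [hDD]
            linear_combination (-algebraMap K R β) * hw
          have e2 : algebraMap K R γ * ((algebraMap K R δ * y.1.1.1 - algebraMap K R β) * w) +
              algebraMap K R δ = D * w * 1 := by
            rw [hDD]
            linear_combination (-algebraMap K R δ) * hw
          rw [e1, e2, bin4_smul]
          linear_combination (D * w) ^ 4 * h1⟩, by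
          have h0 : IsUnit (aeval y.1.1.1 (C α - C γ * X : K[X])) := y.2
          rw [ev2] at h0
          have hw := mul_inv' h0
          set w := Ring.inverse (algebraMap K R α - algebraMap K R γ * y.1.1.1)
          change IsUnit (aeval ((algebraMap K R δ * y.1.1.1 - algebraMap K R β) * w)
            (C γ * X + C δ : K[X]))
          rw [ev1]
          have h3 : algebraMap K R γ * ((algebraMap K R δ * y.1.1.1 - algebraMap K R β) * w) +
              algebraMap K R δ = (algebraMap K R α * algebraMap K R δ -
                algebraMap K R β * algebraMap K R γ) * w := by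
            linear_combination (-algebraMap K R δ) * hw
          rw [h3]
          exact (hD R).mul (IsUnit.of_mul_eq_one _ ((mul_comm _ _).trans hw))⟩
      inv_hom := fun {R} _ _ x => by
        have h0 : IsUnit (aeval x.1.1.1 (C γ * X + C δ : K[X])) := x.2
        rw [ev1] at h0
        have hw := mul_inv' h0
        have hw' : (algebraMap K R α - algebraMap K R γ * ((algebraMap K R α * x.1.1.1 +
            algebraMap K R β) * Ring.inverse (algebraMap K R γ * x.1.1.1 + algebraMap K R δ))) *
            Ring.inverse (algebraMap K R α - algebraMap K R γ * ((algebraMap K R α * x.1.1.1 +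
            algebraMap K R β) * Ring.inverse (algebraMap K R γ * x.1.1.1 + algebraMap K R δ))) = 1 := by
          apply mul_inv'
          have h3 : algebraMap K R α - algebraMap K R γ * ((algebraMap K R α * x.1.1.1 +
              algebraMap K R β) * Ring.inverse (algebraMap K R γ * x.1.1.1 + algebraMap K R δ)) =
              (algebraMap K R α * algebraMap K R δ - algebraMap K R β * algebraMap K R γ) *
              Ring.inverse (algebraMap K R γ * x.1.1.1 + algebraMap K R δ) := by
            linear_combination (-algebraMap K R α) * hw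
          rw [h3]
          exact (hD R).mul (IsUnit.of_mul_eq_one _ ((mul_comm _ _).trans hw))
        refine Subtype.ext (Subtype.ext (Prod.ext ?_ ?_))
        · change (algebraMap K R δ * ((algebraMap K R α * x.1.1.1 + algebraMap K R β) *
            Ring.inverse (algebraMap K R γ * x.1.1.1 + algebraMap K R δ)) - algebraMap K R β) *
            Ring.inverse (algebraMap K R α - algebraMap K R γ * ((algebraMap K R α * x.1.1.1 +
            algebraMap K R β) * Ring.inverse (algebraMap K R γ * x.1.1.1 + algebraMap K R δ))) =
            x.1.1.1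
          set w := Ring.inverse (algebraMap K R γ * x.1.1.1 + algebraMap K R δ)
          set w' := Ring.inverse (algebraMap K R α - algebraMap K R γ *
            ((algebraMap K R α * x.1.1.1 + algebraMap K R β) * w))
          linear_combination (algebraMap K R β * w' + x.1.1.1 * algebraMap K R α * w') * hw +
            x.1.1.1 * hw'
        · change ((algebraMap K R α * algebraMap K R δ - algebraMap K R β * algebraMap K R γ) *
            Ring.inverse (algebraMap K R α - algebraMap K R γ * ((algebraMap K R α * x.1.1.1 +
            algebraMap K R β) * Ring.inverse (algebraMap K R γ * x.1.1.1 + algebraMap K R δ)))) ^ 2 *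
            (Ring.inverse (algebraMap K R γ * x.1.1.1 + algebraMap K R δ) ^ 2 * x.1.1.2) = x.1.1.2
          set w := Ring.inverse (algebraMap K R γ * x.1.1.1 + algebraMap K R δ)
          set w' := Ring.inverse (algebraMap K R α - algebraMap K R γ *
            ((algebraMap K R α * x.1.1.1 + algebraMap K R β) * w))
          have hE : (algebraMap K R α * algebraMap K R δ - algebraMap K R β * algebraMap K R γ) *
              w * w' = 1 := by
            linear_combination (algebraMap K R α * w') * hw + hw'
          linear_combination x.1.1.2 * ((algebraMap K R α * algebraMap K R δ -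
            algebraMap K R β * algebraMap K R γ) * w * w' + 1) * hE
      hom_inv := fun {R} _ _ y => by
        have h0 : IsUnit (aeval y.1.1.1 (C α - C γ * X : K[X])) := y.2
        rw [ev2] at h0
        have hw := mul_inv' h0
        have hw' : (algebraMap K R γ * ((algebraMap K R δ * y.1.1.1 - algebraMap K R β) *
            Ring.inverse (algebraMap K R α - algebraMap K R γ * y.1.1.1)) + algebraMap K R δ) *
            Ring.inverse (algebraMap K R γ * ((algebraMap K R δ * y.1.1.1 - algebraMap K R β) *
            Ring.inverse (algebraMap K R α - algebraMap K R γ * y.1.1.1)) + algebraMap K R δ)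
              = 1 := by
          apply mul_inv'
          have h3 : algebraMap K R γ * ((algebraMap K R δ * y.1.1.1 - algebraMap K R β) *
              Ring.inverse (algebraMap K R α - algebraMap K R γ * y.1.1.1)) + algebraMap K R δ =
              (algebraMap K R α * algebraMap K R δ - algebraMap K R β * algebraMap K R γ) *
              Ring.inverse (algebraMap K R α - algebraMap K R γ * y.1.1.1) := by
            linear_combination (-algebraMap K R δ) * hw
          rw [h3]
          exact (hD R).mul (IsUnit.of_mul_eq_one _ ((mul_comm _ _).trans hw))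
        refine Subtype.ext (Subtype.ext (Prod.ext ?_ ?_))
        · change (algebraMap K R α * ((algebraMap K R δ * y.1.1.1 - algebraMap K R β) *
            Ring.inverse (algebraMap K R α - algebraMap K R γ * y.1.1.1)) + algebraMap K R β) *
            Ring.inverse (algebraMap K R γ * ((algebraMap K R δ * y.1.1.1 - algebraMap K R β) *
            Ring.inverse (algebraMap K R α - algebraMap K R γ * y.1.1.1)) + algebraMap K R δ) =
            y.1.1.1
          set w := Ring.inverse (algebraMap K R α - algebraMap K R γ * y.1.1.1)
          set w' := Ring.inverse (algebraMap K R γ *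
            ((algebraMap K R δ * y.1.1.1 - algebraMap K R β) * w) + algebraMap K R δ)
          linear_combination (-algebraMap K R β * w' + y.1.1.1 * algebraMap K R δ * w') * hw +
            y.1.1.1 * hw'
        · change Ring.inverse (algebraMap K R γ * ((algebraMap K R δ * y.1.1.1 - algebraMap K R β) *
            Ring.inverse (algebraMap K R α - algebraMap K R γ * y.1.1.1)) + algebraMap K R δ) ^ 2 *
            (((algebraMap K R α * algebraMap K R δ - algebraMap K R β * algebraMap K R γ) *
            Ring.inverse (algebraMap K R α - algebraMap K R γ * y.1.1.1)) ^ 2 * y.1.1.2) = y.1.1.2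
          set w := Ring.inverse (algebraMap K R α - algebraMap K R γ * y.1.1.1)
          set w' := Ring.inverse (algebraMap K R γ *
            ((algebraMap K R δ * y.1.1.1 - algebraMap K R β) * w) + algebraMap K R δ)
          have hE : (algebraMap K R α * algebraMap K R δ - algebraMap K R β * algebraMap K R γ) *
              w * w' = 1 := by
            linear_combination (algebraMap K R δ * w') * hw + hw'
          linear_combination y.1.1.2 * ((algebraMap K R α * algebraMap K R δ -
            algebraMap K R β * algebraMap K R γ) * w * w' + 1) * hE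
      nat := fun {R S} _ _ _ _ f x => by
        have h0 : IsUnit (aeval x.1.1.1 (C γ * X + C δ : K[X])) := x.2
        rw [ev1] at h0
        have hn := inv_nat f h0
        rw [map_add, map_mul, AlgHom.commutes, AlgHom.commutes] at hn
        refine Subtype.ext (Subtype.ext (Prod.ext ?_ ?_))
        · change f ((algebraMap K R α * x.1.1.1 + algebraMap K R β) *
            Ring.inverse (algebraMap K R γ * x.1.1.1 + algebraMap K R δ)) =
            (algebraMap K S α * f x.1.1.1 + algebraMap K S β) *
            Ring.inverse (algebraMap K S γ * f x.1.1.1 + algebraMap K S δ)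
          rw [map_mul, hn, map_add, map_mul, AlgHom.commutes, AlgHom.commutes]
        · change f (Ring.inverse (algebraMap K R γ * x.1.1.1 + algebraMap K R δ) ^ 2 * x.1.1.2) =
            Ring.inverse (algebraMap K S γ * f x.1.1.1 + algebraMap K S δ) ^ 2 * f x.1.1.2
          rw [map_mul, map_pow, hn] }

end Pool.Agent.Helper29.CQ
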