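import Mathlib

/-!
# Pencils of binary quadratic forms with vanishing discriminant
-/

set_option autoImplicit false

namespace Pool.Agent.Helper29.CQ

variable {K : Type} [Field K]

/-- if the discriminant of `t² n - 2 t m + r` vanishes identically, then `n, m, r` have a common
zero or `m² = n r` -/
theorem degen (h2 : (2 : K) ≠ 0) (n0 n1 n2 m0 m1 m2 r0 r1 r2 : K)
    (h4 : n1 ^ 2 - 4 * n0 * n2 = 0)
    (h3 : -4 * n1 * m1 + 8 * (n0 * m2 + n2 * m0) = 0)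
    (hh : 4 * m1 ^ 2 - 16 * m0 * m2 + 2 * n1 * r1 - 4 * n0 * r2 - 4 * n2 * r0 = 0)
    (h1 : -4 * m1 * r1 + 8 * m0 * r2 + 8 * m2 * r0 = 0)
    (h0 : r1 ^ 2 - 4 * r0 * r2 = 0) :
    (∃ p q : K, (p ≠ 0 ∨ q ≠ 0) ∧ n0 * p ^ 2 + n1 * p * q + n2 * q ^ 2 = 0 ∧
      m0 * p ^ 2 + m1 * p * q + m2 * q ^ 2 = 0 ∧ r0 * p ^ 2 + r1 * p * q + r2 * q ^ 2 = 0) ∨
    (m0 ^ 2 - n0 * r0 = 0 ∧ 2 * m0 * m1 - n0 * r1 - n1 * r0 = 0 ∧
      2 * m0 * m2 + m1 ^ 2 - n0 * r2 - n1 * r1 - n2 * r0 = 0 ∧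
      2 * m1 * m2 - n1 * r2 - n2 * r1 = 0 ∧ m2 ^ 2 - n2 * r2 = 0) := by
  have h40 : (4 : K) ≠ 0 := by
    have : (4 : K) = 2 * 2 := by norm_num
    rw [this]
    exact mul_ne_zero h2 h2
  by_cases hb : n1 * r1 - 2 * n0 * r2 - 2 * n2 * r0 = 0
  · left
    have hm : m1 ^ 2 - 4 * m0 * m2 = 0 := by
      apply mul_left_cancel₀ h40
      linear_combination hh - 2 * hb
    have hnm : n1 * m1 - 2 * n0 * m2 - 2 * n2 * m0 = 0 := by
      apply mul_left_cancel₀ h40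
      linear_combination (-1) * h3
    have hmr : m1 * r1 - 2 * m0 * r2 - 2 * m2 * r0 = 0 := by
      apply mul_left_cancel₀ h40
      linear_combination (-1) * h1
    by_cases hn0 : n0 = 0
    · have hn1 : n1 = 0 := by
        rw [hn0] at h4
        exact pow_eq_zero_iff (n := 2) two_ne_zero |>.1 (by linear_combination h4)
      by_cases hn2 : n2 = 0
      · by_cases hm0 : m0 = 0
        · have hm1 : m1 = 0 := by
            rw [hm0] at hm
            exact pow_eq_zero_iff (n := 2) two_ne_zero |>.1 (by linear_combination hm)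
          by_cases hm2 : m2 = 0
          · by_cases hr0 : r0 = 0
            · refine ⟨1, 0, Or.inl one_ne_zero, ?_, ?_, ?_⟩ <;> simp [hn0, hm0, hr0]
            · refine ⟨-r1, 2 * r0, Or.inr (mul_ne_zero h2 hr0), ?_, ?_, ?_⟩
              · rw [hn0, hn1, hn2]; ring
              · rw [hm0, hm1, hm2]; ring
              · linear_combination (-r0) * h0
          · have hr0 : r0 = 0 := by
              rw [hm0, hm1] at hmr
              have : (2 * m2) * r0 = 0 := by linear_combination (-1) * hmr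
              exact (mul_eq_zero.1 this).resolve_left (mul_ne_zero h2 hm2)
            refine ⟨1, 0, Or.inl one_ne_zero, ?_, ?_, ?_⟩ <;> simp [hn0, hm0, hr0]
        · refine ⟨-m1, 2 * m0, Or.inr (mul_ne_zero h2 hm0), ?_, ?_, ?_⟩
          · rw [hn0, hn1, hn2]; ring
          · linear_combination (-m0) * hm
          · linear_combination r0 * hm - 2 * m0 * hmr
      · have hm0 : m0 = 0 := by
          rw [hn0, hn1] at hnm
          have : (2 * n2) * m0 = 0 := by linear_combination (-1) * hnm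
          exact (mul_eq_zero.1 this).resolve_left (mul_ne_zero h2 hn2)
        have hr0 : r0 = 0 := by
          rw [hn0, hn1] at hb
          have : (2 * n2) * r0 = 0 := by linear_combination (-1) * hb
          exact (mul_eq_zero.1 this).resolve_left (mul_ne_zero h2 hn2)
        refine ⟨1, 0, Or.inl one_ne_zero, ?_, ?_, ?_⟩ <;> simp [hn0, hm0, hr0]
    · refine ⟨-n1, 2 * n0, Or.inr (mul_ne_zero h2 hn0), ?_, ?_, ?_⟩
      · linear_combination (-n0) * h4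
      · linear_combination m0 * h4 - 2 * n0 * hnm
      · linear_combination r0 * h4 - 2 * n0 * hb
  · right
    have hb4 : 4 * (n1 * r1 - 2 * n0 * r2 - 2 * n2 * r0) ^ 2 ≠ 0 :=
      mul_ne_zero h40 (pow_ne_zero 2 hb)
    refine ⟨?_, ?_, ?_, ?_, ?_⟩
    · apply mul_left_cancel₀ hb4
      rw [mul_zero]
      linear_combination (4 * (m0 * m0 * r1 * r1) + (-8) * (m0 * m1 * r0 * r1) + 4 * (m1 * m1 *
        r0 * r0)) * h4 + (4 * (n0 * m0 * r0 * r2) + 2 * (n0 * m0 * r1 * r1) + (-4) * (n0 * m1 *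
        r0 * r1) + 6 * (n0 * m2 * r0 * r0) + (-2) * (n1 * m0 * r0 * r1) + 1 * (n1 * m1 * r0 * r0)
        + 2 * (n2 * m0 * r0 * r0)) * h3 + (1 * (n0 * n0 * r1 * r1) + (-2) * (n0 * n1 * r0 * r1) +
        4 * (n0 * n2 * r0 * r0)) * hh + (2 * (n0 * n0 * m0 * r2) + 1 * (n0 * n0 * m1 * r1) + (-6)
        * (n0 * n0 * m2 * r0) + (-2) * (n0 * n1 * m0 * r1) + 2 * (n0 * n1 * m1 * r0)) * h1 + (4 *
        (n0 * n0 * n0 * r2) + (-2) * (n0 * n0 * n1 * r1) + 4 * (n0 * n0 * n2 * r0)) * h0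
    · apply mul_left_cancel₀ hb4
      rw [mul_zero]
      linear_combination (24 * (n0 * r0 * r1 * r2) + (-4) * (n0 * r1 * r1 * r1) + (-4) * (n1 * r0
        * r1 * r1) + 8 * (n2 * r0 * r0 * r1) + 8 * (m0 * m1 * r1 * r1) + (-16) * (m1 * m1 * r0 *
        r1) + 32 * (m1 * m2 * r0 * r0)) * h4 + ((-4) * (n0 * m1 * r0 * r2) + 4 * (n0 * m1 * r1 *
        r1) + (-8) * (n0 * m2 * r0 * r1) + (-4) * (n1 * m1 * r0 * r1) + 8 * (n1 * m2 * r0 * r0) +
        4 * (n2 * m1 * r0 * r0)) * h3 + (4 * (n0 * n0 * r1 * r2) + (-4) * (n0 * n1 * r0 * r2) +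
        (-4) * (n0 * n2 * r0 * r1) + 4 * (n1 * n2 * r0 * r0)) * hh + (4 * (n0 * n0 * m1 * r2) + 8
        * (n0 * n0 * m2 * r1) + (-4) * (n0 * n1 * m1 * r1) + (-8) * (n0 * n1 * m2 * r0) + 12 *
        (n0 * n2 * m1 * r0)) * h1 + (8 * (n0 * n0 * n1 * r2) + (-16) * (n0 * n0 * n2 * r1) + 8 *
        (n0 * n1 * n2 * r0)) * h0
    · apply mul_left_cancel₀ hb4
      rw [mul_zero]
      linear_combination (8 * (n0 * r1 * r1 * r2) + (-4) * (n1 * r1 * r1 * r1) + 8 * (n2 * r0 *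
        r1 * r1) + 8 * (m0 * m2 * r1 * r1) + (-24) * (m1 * m1 * r0 * r2) + 4 * (m1 * m1 * r1 *
        r1)) * h4 + (6 * (n0 * m1 * r1 * r2) + (-12) * (n0 * m2 * r0 * r2) + (-6) * (n1 * m1 * r0
        * r2) + 12 * (n2 * m2 * r0 * r0)) * h3 + (4 * (n0 * n0 * r2 * r2) + 2 * (n0 * n1 * r1 *
        r2) + (-16) * (n0 * n2 * r0 * r2) + (-2) * (n0 * n2 * r1 * r1) + 2 * (n1 * n2 * r0 * r1)
        + 4 * (n2 * n2 * r0 * r0)) * hh + (12 * (n0 * n0 * m2 * r2) + (-6) * (n0 * n2 * m1 * r1)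
        + (-12) * (n0 * n2 * m2 * r0) + 6 * (n1 * n2 * m1 * r0)) * h1 + (24 * (n0 * n0 * n2 * r2)
        + (-12) * (n0 * n1 * n2 * r1) + 24 * (n0 * n2 * n2 * r0)) * h0
    · apply mul_left_cancel₀ hb4
      rw [mul_zero]
      linear_combination (8 * (n0 * r1 * r2 * r2) + (-4) * (n1 * r1 * r1 * r2) + 24 * (n2 * r0 *
        r1 * r2) + (-4) * (n2 * r1 * r1 * r1) + (-32) * (m1 * m2 * r0 * r2) + 8 * (m1 * m2 * r1 *
        r1)) * h4 + (4 * (n0 * m1 * r2 * r2) + (-8) * (n1 * m2 * r0 * r2) + (-4) * (n2 * m1 * r0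
        * r2) + 8 * (n2 * m2 * r0 * r1)) * h3 + (4 * (n0 * n1 * r2 * r2) + (-4) * (n0 * n2 * r1 *
        r2) + (-4) * (n1 * n2 * r0 * r2) + 4 * (n2 * n2 * r0 * r1)) * hh + (8 * (n0 * n1 * m2 *
        r2) + (-4) * (n0 * n2 * m1 * r2) + (-8) * (n0 * n2 * m2 * r1) + 4 * (n2 * n2 * m1 * r0))
        * h1 + (8 * (n0 * n1 * n2 * r2) + (-16) * (n0 * n2 * n2 * r1) + 8 * (n1 * n2 * n2 * r0))
        * h0
    · apply mul_left_cancel₀ hb4
      rw [mul_zero]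
      linear_combination (4 * (m1 * m1 * r2 * r2) + (-8) * (m1 * m2 * r1 * r2) + 4 * (m2 * m2 *
        r1 * r1)) * h4 + (2 * (n0 * m2 * r2 * r2) + 1 * (n1 * m1 * r2 * r2) + (-2) * (n1 * m2 *
        r1 * r2) + (-1) * (n2 * m1 * r1 * r2) + (-2) * (n2 * m2 * r0 * r2) + 2 * (n2 * m2 * r1 *
        r1)) * h3 + (4 * (n0 * n2 * r2 * r2) + (-2) * (n1 * n2 * r1 * r2) + 1 * (n2 * n2 * r1 *
        r1)) * hh + (6 * (n0 * n2 * m2 * r2) + (-1) * (n1 * n2 * m1 * r2) + (-2) * (n1 * n2 * m2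
        * r1) + 1 * (n2 * n2 * m1 * r1) + 2 * (n2 * n2 * m2 * r0)) * h1 + (4 * (n0 * n2 * n2 *
        r2) + (-2) * (n1 * n2 * n2 * r1) + 4 * (n2 * n2 * n2 * r0)) * h0

end Pool.Agent.Helper29.CQ
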