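import Pool.Agent.Helper29.CQ.GeoSplit

/-!
# The discriminant of the conic bundle
-/

set_option autoImplicit false

namespace Pool.Agent.Helper29.CQ

open Pool.Agent.Helper65.CC Pool.Agent.Helper87.CC Pool.Agent.Helper65.CC.KFn
open Polynomial Pool.Agent.Helper71.CQ

variable {K : Type} [Field K] {G : ∀ (R : Type) [CommRing R] [Algebra K R], Prop}

/-- a singular point from three quadratic forms -/
theorem sing_split (c : ℕ → ℕ → K) (q q' : Fin 6 → K) (l l' : Fin 3 → K)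
    (hF : ∀ (R : Type) [CommRing R] [Algebra K R] (x y z : R),
      F4 c x y z = qf q x y z ^ 2 - lf l x y z * lf l' x y z * qf q' x y z)
    (p : Fin 3 → K) (hp : p ≠ 0) (h1 : lf l (p 0) (p 1) (p 2) * lf l' (p 0) (p 1) (p 2) = 0)
    (h2 : qf q (p 0) (p 1) (p 2) = 0) (h3 : qf q' (p 0) (p 1) (p 2) = 0) : Sing c p := by
  let X : Fin 3 → MvPolynomial (Fin 3) K := MvPolynomial.X
  refine sing_of c (-(lf l (X 0) (X 1) (X 2) * lf l' (X 0) (X 1) (X 2)))
    (qf q (X 0) (X 1) (X 2)) (qf q' (X 0) (X 1) (X 2)) ?_ p hp ?_ ?_ ?_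
  · rw [G4]
    refine (hF _ (X 0) (X 1) (X 2)).trans ?_
    ring
  · have e : MvPolynomial.eval p (-(lf l (X 0) (X 1) (X 2) * lf l' (X 0) (X 1) (X 2))) =
        -(lf l (p 0) (p 1) (p 2) * lf l' (p 0) (p 1) (p 2)) := by
      simp [lf, X, MvPolynomial.algebraMap_eq]
    rw [e, h1, neg_zero]
  · have e : MvPolynomial.eval p (qf q (X 0) (X 1) (X 2)) = qf q (p 0) (p 1) (p 2) := by
      simp [qf, X, MvPolynomial.algebraMap_eq]
    rw [e, h2]
  · have e : MvPolynomial.eval p (qf q' (X 0) (X 1) (X 2)) = qf q' (p 0) (p 1) (p 2) := by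
      simp [qf, X, MvPolynomial.algebraMap_eq]
    rw [e, h3]

/-- binary cubic forms have zeros -/
theorem exists_cubic [IsAlgClosed K] (a b c d : K) :
    ∃ x y : K, (x ≠ 0 ∨ y ≠ 0) ∧
      a * x ^ 3 + b * (x ^ 2 * y) + c * (x * y ^ 2) + d * y ^ 3 = 0 := by
  by_cases ha : a = 0
  · exact ⟨1, 0, Or.inl one_ne_zero, by rw [ha]; ring⟩
  · obtain ⟨x, hx⟩ := IsAlgClosed.exists_root (C a * X ^ 3 + C b * X ^ 2 + C c * X + C d)
      (by rw [degree_cubic ha]; exact three_ne_zero)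
    refine ⟨x, 1, Or.inr one_ne_zero, ?_⟩
    simp only [IsRoot.def, eval_add, eval_mul, eval_pow, eval_X, eval_C] at hx
    linear_combination hx

/-- quartics divisible by `z` are singular -/
theorem sing_lead [IsAlgClosed K] (c : ℕ → ℕ → K) (h : ∀ i, lead c i = 0) :
    ∃ p, Sing c p := by
  have e4 : c 4 0 = 0 := h 4
  have e3 : c 3 1 = 0 := h 3
  have e2 : c 2 2 = 0 := h 2
  have e1 : c 1 3 = 0 := h 1
  have e0 : c 0 4 = 0 := h 0
  obtain ⟨x, y, hxy, hz⟩ := exists_cubic (c 3 0) (c 2 1) (c 1 2) (c 0 3)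
  let Z : Fin 3 → MvPolynomial (Fin 3) K := MvPolynomial.X
  let D : K → MvPolynomial (Fin 3) K := fun a => MvPolynomial.C a
  refine ⟨![x, y, 0], sing_of c (Z 2) 0 (D (c 0 0) * Z 2 ^ 3 + D (c 1 0) * Z 0 * Z 2 ^ 2 +
    D (c 0 1) * Z 1 * Z 2 ^ 2 + D (c 2 0) * Z 0 ^ 2 * Z 2 + D (c 1 1) * Z 0 * Z 1 * Z 2 +
    D (c 0 2) * Z 1 ^ 2 * Z 2 + D (c 3 0) * Z 0 ^ 3 + D (c 2 1) * Z 0 ^ 2 * Z 1 +
    D (c 1 2) * Z 0 * Z 1 ^ 2 + D (c 0 3) * Z 1 ^ 3) ?_ _ ?_ ?_ ?_ ?_⟩
  · rw [G4, F4, e4, e3, e2, e1, e0]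
    simp only [MvPolynomial.algebraMap_eq, map_zero, Z, D]
    ring
  · intro h0
    rcases hxy with hx | hy
    · exact hx (congrFun h0 0)
    · exact hy (congrFun h0 1)
  · simp [Z]
  · simp
  · simp only [Z, D, map_add, map_mul, map_pow, MvPolynomial.eval_X, MvPolynomial.eval_C,
      Matrix.cons_val]
    linear_combination hz

/-- the discriminant -/
theorem disc_eq (q q' : Fin 6 → K) (l l' : Fin 3 → K) :
    ww q q' l l' 1 ^ 2 - 4 * ww q q' l l' 0 * ww q q' l l' 2 =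
      C (nn l l' 1 ^ 2 - 4 * nn l l' 0 * nn l l' 2) * X ^ 4 +
      C (-4 * nn l l' 1 * q 1 + 8 * (nn l l' 0 * q 2 + nn l l' 2 * q 0)) * X ^ 3 +
      C (4 * q 1 ^ 2 - 16 * q 0 * q 2 + 2 * nn l l' 1 * q' 1 - 4 * nn l l' 0 * q' 2 -
        4 * nn l l' 2 * q' 0) * X ^ 2 +
      C (-4 * q 1 * q' 1 + 8 * q 0 * q' 2 + 8 * q 2 * q' 0) * X +
      C (q' 1 ^ 2 - 4 * q' 0 * q' 2) := by
  simp only [ww, map_add, map_sub, map_mul, map_pow, map_neg, map_ofNat]
  ring

theorem disc_ne [IsAlgClosed K] (h2 : (2 : K) ≠ 0) (c : ℕ → ℕ → K) (q q' : Fin 6 → K)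
    (l l' : Fin 3 → K)
    (hF : ∀ (R : Type) [CommRing R] [Algebra K R] (x y z : R),
      F4 c x y z = qf q x y z ^ 2 - lf l x y z * lf l' x y z * qf q' x y z)
    (hD : ww q q' l l' 1 ^ 2 - 4 * ww q q' l l' 0 * ww q q' l l' 2 = 0) : ∃ p, Sing c p := by
  rw [disc_eq] at hD
  have k4 := congrArg (fun p => coeff p 4) hD
  have k3 := congrArg (fun p => coeff p 3) hD
  have k2 := congrArg (fun p => coeff p 2) hD
  have k1 := congrArg (fun p => coeff p 1) hD
  have k0 := congrArg (fun p => coeff p 0) hD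
  simp only [coeff_add, coeff_C_mul, coeff_X_pow, coeff_X, coeff_C, coeff_zero] at k4 k3 k2 k1 k0
  norm_num at k4 k3 k2 k1 k0
  rcases degen h2 _ _ _ _ _ _ _ _ _ k4 (by linear_combination k3) k2 (by linear_combination k1) k0 with
    ⟨x, y, hxy, e1, e2, e3⟩ | ⟨f4, f3, f2, f1, f0⟩
  · refine ⟨![x, y, 0], sing_split c q q' l l' hF _ ?_ ?_ ?_ ?_⟩
    · intro h0
      rcases hxy with hx | hy
      · exact hx (congrFun h0 0)
      · exact hy (congrFun h0 1)
    · rw [← nn_eq]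
      simp only [qf, Matrix.cons_val, Algebra.algebraMap_self, RingHom.id_apply]
      linear_combination e1
    · simp only [qf, Matrix.cons_val, Algebra.algebraMap_self, RingHom.id_apply]
      linear_combination e2
    · simp only [qf, Matrix.cons_val, Algebra.algebraMap_self, RingHom.id_apply]
      linear_combination e3
  · refine sing_lead c ?_
    have h1 := hF K[X] X 1 0
    rw [← nn_eq] at h1
    have h3 : qf q (X : K[X]) 1 0 ^ 2 - qf (nn l l') X 1 0 * qf q' X 1 0 =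
        C (q 0 ^ 2 - nn l l' 0 * q' 0) * X ^ 4 +
        C (2 * q 0 * q 1 - nn l l' 0 * q' 1 - nn l l' 1 * q' 0) * X ^ 3 +
        C (2 * q 0 * q 2 + q 1 ^ 2 - nn l l' 0 * q' 2 - nn l l' 1 * q' 1 - nn l l' 2 * q' 0) *
          X ^ 2 +
        C (2 * q 1 * q 2 - nn l l' 1 * q' 2 - nn l l' 2 * q' 1) * X +
        C (q 2 ^ 2 - nn l l' 2 * q' 2) := by
      simp only [qf, Polynomial.algebraMap_eq, map_add, map_sub, map_mul, map_pow, map_ofNat]
      ring
    rw [h3, f4, f3, f2, f1, f0] at h1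
    have h4 : F4 c (X : K[X]) 1 0 = C (c 4 0) * X ^ 4 + C (c 3 1) * X ^ 3 + C (c 2 2) * X ^ 2 +
        C (c 1 3) * X + C (c 0 4) := by
      simp only [F4, Polynomial.algebraMap_eq]
      ring
    rw [h4] at h1
    have g4 := congrArg (fun p => coeff p 4) h1
    have g3 := congrArg (fun p => coeff p 3) h1
    have g2 := congrArg (fun p => coeff p 2) h1
    have g1 := congrArg (fun p => coeff p 1) h1
    have g0 := congrArg (fun p => coeff p 0) h1
    simp only [coeff_add, coeff_C_mul, coeff_X_pow, coeff_X, coeff_C, map_zero, zero_mul,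
      add_zero, coeff_zero] at g4 g3 g2 g1 g0
    norm_num at g4 g3 g2 g1 g0
    intro i
    fin_cases i
    · exact g0
    · exact g1
    · exact g2
    · exact g3
    · exact g4

/-- the discriminant double cover is in the class -/
theorem disc_mem [IsAlgClosed K] (hG : GOps K G) (h2 : (2 : K) ≠ 0) (c : ℕ → ℕ → K)
    (q q' : Fin 6 → K) (l l' : Fin 3 → K)
    (hF : ∀ (R : Type) [CommRing R] [Algebra K R] (x y z : R),
      F4 c x y z = qf q x y z ^ 2 - lf l x y z * lf l' x y z * qf q' x y z)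
    (hinf : (BC (bin4 (lead c) (X : K[X]) 1)).Mem G) :
    (BC (ww q q' l l' 1 ^ 2 - 4 * ww q q' l l' 0 * ww q q' l l' 2)).Mem G := by
  by_cases h0 : ww q q' l l' 0 = 0
  · rw [h0, mul_zero, zero_mul, sub_zero]
    exact BC.square hG _
  by_cases h1 : (C (nn l l' 0) * X ^ 2 + C (nn l l' 1) * X + C (nn l l' 2) : K[X]) = 0
  · have k2 := congrArg (fun p => coeff p 2) h1
    have k1 := congrArg (fun p => coeff p 1) h1
    have k0 := congrArg (fun p => coeff p 0) h1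
    simp only [coeff_add, coeff_C_mul, coeff_X_pow, coeff_X, coeff_C, coeff_zero] at k2 k1 k0
    norm_num at k2 k1 k0
    refine BC.deg_two hG _ ?_
    rw [disc_eq, k2, k1, k0]
    have e : (C ((0 : K) ^ 2 - 4 * 0 * 0) * X ^ 4 + C (-4 * 0 * q 1 + 8 * (0 * q 2 + 0 * q 0)) *
        X ^ 3 + C (4 * q 1 ^ 2 - 16 * q 0 * q 2 + 2 * 0 * q' 1 - 4 * 0 * q' 2 - 4 * 0 * q' 0) *
        X ^ 2 + C (-4 * q 1 * q' 1 + 8 * q 0 * q' 2 + 8 * q 2 * q' 0) * X +
        C (q' 1 ^ 2 - 4 * q' 0 * q' 2) : K[X]) =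
        C (4 * q 1 ^ 2 - 16 * q 0 * q 2) * X ^ 2 +
        C (-4 * q 1 * q' 1 + 8 * q 0 * q' 2 + 8 * q 2 * q' 0) * X +
        C (q' 1 ^ 2 - 4 * q' 0 * q' 2) := by
      simp
    rw [e]
    exact natDegree_quadratic_le
  · refine BC.corr hG h2 (a' := C (nn l l' 0) * X ^ 2 + C (nn l l' 1) * X + C (nn l l' 2))
      (b' := -2 * (C (q 0) * X ^ 2 + C (q 1) * X + C (q 2)))
      (c' := C (q' 0) * X ^ 2 + C (q' 1) * X + C (q' 2)) ?_ h0 h1 ?_
    · intro R _ _ t x
      simp only [ww, map_add, map_sub, map_mul, map_pow, map_neg, map_ofNat, aeval_C, aeval_X]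
      ring
    · have h3 := hF K[X] X 1 0
      rw [← nn_eq] at h3
      have e1 : (-2 * (C (q 0) * X ^ 2 + C (q 1) * X + C (q 2))) ^ 2 -
          4 * (C (nn l l' 0) * X ^ 2 + C (nn l l' 1) * X + C (nn l l' 2)) *
            (C (q' 0) * X ^ 2 + C (q' 1) * X + C (q' 2)) =
          C 4 * bin4 (lead c) (X : K[X]) 1 := by
        have e2 : bin4 (lead c) (X : K[X]) 1 = F4 c (X : K[X]) 1 0 := by
          have l0 : lead c 0 = c 0 4 := rfl
          have l1 : lead c 1 = c 1 3 := rfl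
          have l2 : lead c 2 = c 2 2 := rfl
          have l3 : lead c 3 = c 3 1 := rfl
          have l4 : lead c 4 = c 4 0 := rfl
          rw [bin4, l0, l1, l2, l3, l4, F4]
          ring
        rw [e2, h3]
        simp only [qf, Polynomial.algebraMap_eq, map_ofNat]
        ring
      rw [e1]
      refine BC.smul _ ?_ hinf
      have : (4 : K) = 2 * 2 := by norm_num
      rw [this]
      exact mul_ne_zero h2 h2

/-- **The split case.** -/
theorem geo_split [IsAlgClosed K] (hG : GOps K G) (h2 : (2 : K) ≠ 0) (c : ℕ → ℕ → K)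
    (q q' : Fin 6 → K) (l l' : Fin 3 → K) (hl : ∃ i j, l i * l' j - l j * l' i ≠ 0)
    (hF : ∀ (R : Type) [CommRing R] [Algebra K R] (x y z : R),
      F4 c x y z = qf q x y z ^ 2 - lf l x y z * lf l' x y z * qf q' x y z)
    (hinf : (BC (bin4 (lead c) (X : K[X]) 1)).Mem G) (hs : ¬ ∃ p, Sing c p) : (V c).Mem G := by
  refine V_of_W hG c q q' l l' hl (fun R _ _ x y => hF R x y 1) ?_
  refine CBf.mem hG h2 _ ?_ (disc_mem hG h2 c q q' l l' hF hinf)
  intro h0
  exact hs (disc_ne h2 c q q' l l' hF h0)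

end Pool.Agent.Helper29.CQ
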