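import Pool.Agent.Helper65.CC.KFn

/-!
# The calculus of functors of points: fibrations over the affine line
-/

set_option autoImplicit false

namespace Pool.Agent.Helper29.CQ

open Pool.Agent.Helper65.CC Pool.Agent.Helper87.CC Pool.Agent.Helper65.CC.KFn
open Polynomial

/-- classes of finitely generated `K`-algebras closed under cut and paste and transfer -/
structure GOps (K : Type) [Field K] (G : ∀ (R : Type) [CommRing R] [Algebra K R], Prop) :
    Prop extends KOps K G where
  one : G K
  transfer : ∀ (R : Type) [CommRing R] [Algebra K R] (g : Polynomial R), Algebra.FiniteType K R →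
    g.Monic → 0 < g.natDegree → G (AdjoinRoot g) → G R

variable {K : Type} [Field K]

/-- representable functors -/
class Rp (F : KFn K) : Prop where
  out : ∃ (A : Type) (_ : CommRing A) (_ : Algebra K A) (a : F.obj A),
    Algebra.FiniteType K A ∧ F.Rep A a

instance (F : KFn K) [h : Rp F] (u : Coord F) : Rp (F.opn u) := by
  obtain ⟨A, _, _, a, hA, ha⟩ := h.out
  obtain ⟨b, hb⟩ := ha.opn u
  exact ⟨_, _, _, b, ft_away hA _, hb⟩

instance (F : KFn K) [h : Rp F] (u : Coord F) : Rp (F.cls u) := by
  obtain ⟨A, _, _, a, hA, ha⟩ := h.out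
  obtain ⟨b, hb⟩ := ha.cls u
  exact ⟨_, _, _, b, ft_quot hA _, hb⟩

instance (F : KFn K) [h : Rp F] : Rp F.line := by
  obtain ⟨A, _, _, a, hA, ha⟩ := h.out
  obtain ⟨b, hb⟩ := ha.line
  exact ⟨_, _, _, b, ft_poly hA, hb⟩

theorem Rp.iso {F F' : KFn K} [h : Rp F] (e : Iso F F') : Rp F' := by
  obtain ⟨A, _, _, a, hA, ha⟩ := h.out
  exact ⟨A, _, _, e.hom a, hA, ha.iso e⟩

/-- the composition of isomorphisms -/
def trans {F F' F'' : KFn K} (e : Iso F F') (e' : Iso F' F'') : Iso F F'' where
  hom x := e'.hom (e.hom x)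
  inv y := e.inv (e'.inv y)
  inv_hom x := by rw [e'.inv_hom, e.inv_hom]
  hom_inv y := by rw [e.hom_inv, e'.hom_inv]
  nat f x := by rw [e'.nat, e.nat]

variable {G : ∀ (R : Type) [CommRing R] [Algebra K R], Prop}

theorem mem_opn (hG : KOps K G) {F : KFn K} [h : Rp F] (u : Coord F) (h1 : F.Mem G)
    (h2 : (F.cls u).Mem G) : (F.opn u).Mem G := by
  obtain ⟨A, _, _, a, hA, ha⟩ := h.out
  exact Mem.opn hG u hA ha h1 h2

theorem mem_cls (hG : KOps K G) {F : KFn K} [h : Rp F] (u : Coord F) (h1 : F.Mem G)
    (h2 : (F.opn u).Mem G) : (F.cls u).Mem G := by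
  obtain ⟨A, _, _, a, hA, ha⟩ := h.out
  obtain ⟨b, hb⟩ := ha.cls u
  obtain ⟨c, hc⟩ := ha.opn u
  exact Mem.of_rep hG hb (hG.closed A (u.val a) (h1 A a hA ha) (h2 _ c (ft_away hA _) hc))

/-! ### Coordinates -/

/-- a coordinate on a subfunctor -/
def res {F : KFn K} {p : ∀ {R : Type} [CommRing R] [Algebra K R], F.obj R → Prop}
    {hp : ∀ {R S : Type} [CommRing R] [CommRing S] [Algebra K R] [Algebra K S] (f : R →ₐ[K] S)
      (x : F.obj R), p x → p (F.map f x)} (t : Coord F) : Coord (F.sub p hp) where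
  val x := t.val x.1
  nat f x := t.nat f x.1

/-- a coordinate on a closed subfunctor -/
def resC {F : KFn K} (u t : Coord F) : Coord (F.cls u) where
  val x := t.val x.1
  nat f x := t.nat f x.1

/-- a coordinate on an open subfunctor -/
def resO {F : KFn K} (u t : Coord F) : Coord (F.opn u) where
  val x := t.val x.1
  nat f x := t.nat f x.1

/-- the value of a polynomial at a coordinate -/
noncomputable def polyC {F : KFn K} (t : Coord F) (h : K[X]) : Coord F where
  val x := aeval (t.val x) h
  nat f x := by rw [← t.nat, aeval_algHom_apply]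

/-- the difference of a coordinate and a constant -/
def subC {F : KFn K} (t : Coord F) (a : K) : Coord F where
  val {R} _ _ x := t.val x - algebraMap K R a
  nat f x := by rw [map_sub, t.nat, AlgHom.commutes]

/-- the natural inverse -/
theorem inv_nat {R S : Type} [CommRing R] [CommRing S] [Algebra K R] [Algebra K S]
    (f : R →ₐ[K] S) {a : R} (h : IsUnit a) : f (Ring.inverse a) = Ring.inverse (f a) := by
  have h1 : f (Ring.inverse a) * f a = 1 := by
    rw [← map_mul, Ring.inverse_mul_cancel a h, map_one]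
  have h2 : f a * Ring.inverse (f a) = 1 := Ring.mul_inverse_cancel _ (h.map f)
  calc f (Ring.inverse a) = f (Ring.inverse a) * (f a * Ring.inverse (f a)) := by rw [h2, mul_one]
    _ = Ring.inverse (f a) := by rw [← mul_assoc, h1, one_mul]

theorem unit_const {R : Type} [CommRing R] [Algebra K R] {a : K} (ha : a ≠ 0) :
    IsUnit (algebraMap K R a) := (isUnit_iff_ne_zero.2 ha).map (algebraMap K R)

/-- if all fibres over points of the line and an open part of `F` are in the class, then `F` is in
the class -/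
theorem mem_fibres [IsAlgClosed K] (hG : KOps K G) (n : ℕ) :
    ∀ (F : KFn K) (t : Coord F) (h : K[X]), h ≠ 0 → h.natDegree = n →
      (∀ a : K, (F.cls (subC t a)).Mem G) → (F.opn (polyC t h)).Mem G → F.Mem G := by
  induction n with
  | zero =>
    intro F t h h0 hn _ hgen
    obtain ⟨c, rfl⟩ := natDegree_eq_zero.1 hn
    have hc : c ≠ 0 := fun h => h0 (by rw [h, C_0])
    refine Mem.of_iso (F' := F.opn (polyC t (C c))) ?_ hgen
    exact
      { hom := fun {R} _ _ x => ⟨x, by
          change IsUnit (aeval (t.val x) (C c))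
          rw [aeval_C]
          exact unit_const hc⟩
        inv := fun x => x.1
        inv_hom := fun _ => rfl
        hom_inv := fun _ => rfl
        nat := fun _ _ => rfl }
  | succ n ih =>
    intro F t h h0 hn hfib hgen
    obtain ⟨a, ha⟩ := IsAlgClosed.exists_root h (by
      rw [degree_eq_natDegree h0, hn]
      exact_mod_cast Nat.succ_ne_zero n)
    obtain ⟨g, rfl⟩ := dvd_iff_isRoot.2 ha
    have hg0 : g ≠ 0 := right_ne_zero_of_mul h0
    have hgn : g.natDegree = n := by
      rw [natDegree_mul (X_sub_C_ne_zero a) hg0, natDegree_X_sub_C] at hn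
      omega
    refine Mem.glue hG (subC t a) ?_ (hfib a)
    refine ih (F.opn (subC t a)) (resO _ t) g hg0 hgn ?_ ?_
    · intro b
      by_cases hab : b = a
      · subst hab
        refine Mem.of_trivial hG fun A _ _ x => ?_
        have h1 : t.val x.1.1 - algebraMap K A b = 0 := x.2
        have h2 : IsUnit (t.val x.1.1 - algebraMap K A b) := x.1.2
        rw [h1] at h2
        exact isUnit_zero_iff.1 h2 |> fun h => subsingleton_of_zero_eq_one h
      · refine Mem.of_iso (F' := F.cls (subC t b)) ?_ (hfib b)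
        exact
          { hom := fun x => ⟨x.1.1, x.2⟩
            inv := fun {R} _ _ x => ⟨⟨x.1, by
              have h1 : t.val x.1 - algebraMap K R b = 0 := x.2
              change IsUnit (t.val x.1 - algebraMap K R a)
              rw [sub_eq_zero.1 h1, ← map_sub]
              exact unit_const (sub_ne_zero.2 hab)⟩, x.2⟩
            inv_hom := fun _ => rfl
            hom_inv := fun _ => rfl
            nat := fun _ _ => rfl }
    · refine Mem.of_iso (F' := F.opn (polyC t ((X - C a) * g))) ?_ hgen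
      exact
        { hom := fun {R} _ _ x => ⟨x.1.1, by
            change IsUnit (aeval (t.val x.1.1) ((X - C a) * g))
            rw [map_mul, map_sub, aeval_X, aeval_C]
            exact x.1.2.mul x.2⟩
          inv := fun {R} _ _ x => ⟨⟨x.1, by
            have h1 : IsUnit (aeval (t.val x.1) ((X - C a) * g)) := x.2
            rw [map_mul, map_sub, aeval_X, aeval_C] at h1
            exact isUnit_of_mul_isUnit_left h1⟩, by
            have h1 : IsUnit (aeval (t.val x.1) ((X - C a) * g)) := x.2
            rw [map_mul] at h1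
            exact isUnit_of_mul_isUnit_right h1⟩
          inv_hom := fun _ => rfl
          hom_inv := fun _ => rfl
          nat := fun _ _ => rfl }

/-- the closed subfunctor over the zeros of a polynomial -/
theorem mem_cls_poly [IsAlgClosed K] (hG : KOps K G) (F : KFn K) (t : Coord F) (h : K[X])
    (h0 : h ≠ 0) (hfib : ∀ a : K, (F.cls (subC t a)).Mem G) : (F.cls (polyC t h)).Mem G := by
  refine mem_fibres hG _ _ (resC _ t) h h0 rfl ?_ ?_
  · intro a
    by_cases ha : h.eval a = 0
    · refine Mem.of_iso (F' := F.cls (subC t a)) ?_ (hfib a)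
      exact
        { hom := fun x => ⟨x.1.1, x.2⟩
          inv := fun {R} _ _ x => ⟨⟨x.1, by
            have h1 : t.val x.1 - algebraMap K R a = 0 := x.2
            change aeval (t.val x.1) h = 0
            rw [sub_eq_zero.1 h1, aeval_algebraMap_apply, coe_aeval_eq_eval, ha, map_zero]⟩, x.2⟩
          inv_hom := fun _ => rfl
          hom_inv := fun _ => rfl
          nat := fun _ _ => rfl }
    · refine Mem.of_trivial hG fun A _ _ x => ?_
      have h1 : t.val x.1.1 - algebraMap K A a = 0 := x.2
      have h2 : aeval (t.val x.1.1) h = 0 := x.1.2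
      rw [sub_eq_zero.1 h1, aeval_algebraMap_apply, coe_aeval_eq_eval] at h2
      have h3 := unit_const (R := A) ha
      rw [h2] at h3
      exact subsingleton_of_zero_eq_one (isUnit_zero_iff.1 h3)
  · refine Mem.of_trivial hG fun A _ _ x => ?_
    have h1 : aeval (t.val x.1.1) h = 0 := x.1.2
    have h2 : IsUnit (aeval (t.val x.1.1) h) := x.2
    rw [h1] at h2
    exact subsingleton_of_zero_eq_one (isUnit_zero_iff.1 h2)

/-- open parts over the line -/
theorem mem_opn_poly [IsAlgClosed K] (hG : KOps K G) (F : KFn K) [Rp F] (t : Coord F) (h : K[X])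
    (h0 : h ≠ 0) (hF : F.Mem G) (hfib : ∀ a : K, (F.cls (subC t a)).Mem G) :
    (F.opn (polyC t h)).Mem G :=
  mem_opn hG _ hF (mem_cls_poly hG F t h h0 hfib)

/-- the double cover `μ ^ 2 = d` -/
def dbl (F : KFn K) (d : Coord F) : KFn K :=
  F.line.cls ⟨fun x => x.2 ^ 2 - d.val x.1, fun f x => by
    rw [map_sub, map_pow, d.nat]
    rfl⟩

instance (F : KFn K) [Rp F] (d : Coord F) : Rp (dbl F d) := by
  unfold dbl
  infer_instance

theorem rep_dbl {F : KFn K} (d : Coord F) {A : Type} [CommRing A] [Algebra K A] {a : F.obj A}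
    (ha : F.Rep A a) : ∃ b, (dbl F d).Rep (AdjoinRoot (X ^ 2 - C (d.val a) : A[X])) b := by
  set g : A[X] := X ^ 2 - C (d.val a) with hg
  let ι : A →ₐ[K] AdjoinRoot g := IsScalarTower.toAlgHom K A (AdjoinRoot g)
  have hι : ∀ c, ι c = AdjoinRoot.of g c := fun c => rfl
  have hroot : AdjoinRoot.root g ^ 2 - d.val (F.map ι a) = 0 := by
    have h1 := AdjoinRoot.eval₂_root g
    rw [← d.nat, hι]
    rw [hg] at h1 ⊢
    simpa using h1
  refine ⟨⟨(F.map ι a, AdjoinRoot.root g), hroot⟩, ?_⟩
  intro R _ _ x
  obtain ⟨f, hf, hu⟩ := ha R x.1.1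
  have hx : x.1.2 ^ 2 - d.val x.1.1 = 0 := x.2
  have he : eval₂ (f : A →+* R) x.1.2 g = 0 := by
    rw [hg, eval₂_sub, eval₂_pow, eval₂_X, eval₂_C]
    change x.1.2 ^ 2 - f (d.val a) = 0
    rw [d.nat, hf]
    exact hx
  let g0 : AdjoinRoot g →ₐ[K] R :=
    { AdjoinRoot.lift (f : A →+* R) x.1.2 he with
      commutes' := fun k => by
        rw [IsScalarTower.algebraMap_apply K A (AdjoinRoot g)]
        change AdjoinRoot.lift (f : A →+* R) x.1.2 he (AdjoinRoot.of g _) = _
        rw [AdjoinRoot.lift_of]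
        exact f.commutes k }
  have hg0 : g0.comp ι = f := by
    ext b
    change AdjoinRoot.lift (f : A →+* R) x.1.2 he (AdjoinRoot.of g _) = _
    rw [AdjoinRoot.lift_of]
    rfl
  have hX : g0 (AdjoinRoot.root g) = x.1.2 := by
    change AdjoinRoot.lift (f : A →+* R) x.1.2 he (AdjoinRoot.root g) = _
    rw [AdjoinRoot.lift_root]
  refine ⟨g0, ?_, ?_⟩
  · apply Subtype.ext
    refine Prod.ext ?_ hX
    change F.map _ (F.map _ a) = x.1.1
    rw [← F.comp_map, hg0, hf]
  · intro g' hg'
    have h0 := congrArg Subtype.val hg'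
    have h1 : g'.comp ι = f := by
      apply hu
      rw [F.comp_map]
      exact congrArg Prod.fst h0
    have h2 : g' (AdjoinRoot.root g) = x.1.2 := congrArg Prod.snd h0
    apply AlgHom.coe_ringHom_injective
    apply AdjoinRoot.ringHom_ext
    · ext b
      exact DFunLike.congr_fun (h1.trans hg0.symm) b
    · exact h2.trans hX.symm

/-- **transfer for double covers** -/
theorem mem_of_dbl (hG : GOps K G) {F : KFn K} (d : Coord F) (h : (dbl F d).Mem G) : F.Mem G := by
  intro A _ _ a hA ha
  obtain ⟨b, hb⟩ := rep_dbl d ha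
  rcases subsingleton_or_nontrivial A with h0 | h0
  · exact hG.zero A h0
  have hm : (X ^ 2 - C (d.val a) : A[X]).Monic := monic_X_pow_sub_C _ two_ne_zero
  refine hG.transfer A _ hA hm ?_ (h _ b ?_ hb)
  · rw [natDegree_X_pow_sub_C]
    exact two_pos
  · exact hA.trans (inferInstance : Algebra.FiniteType A (AdjoinRoot (X ^ 2 - C (d.val a) : A[X])))

/-! ### Affine spaces -/

/-- the point -/
def pnt (K : Type) [Field K] : KFn K where
  obj _ _ _ := Unit
  map _ _ := ()
  id_map _ := rfl
  comp_map _ _ _ := rfl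

/-- the line -/
def A1 (K : Type) [Field K] : KFn K where
  obj R _ _ := R
  map f x := f x
  id_map _ := rfl
  comp_map _ _ _ := rfl

/-- the plane -/
def A2 (K : Type) [Field K] : KFn K where
  obj R _ _ := R × R
  map f x := (f x.1, f x.2)
  id_map _ := rfl
  comp_map _ _ _ := rfl

/-- the space -/
def A3 (K : Type) [Field K] : KFn K where
  obj R _ _ := R × R × R
  map f x := (f x.1, f x.2.1, f x.2.2)
  id_map _ := rfl
  comp_map _ _ _ := rfl

theorem rep_pnt : (pnt K).Rep K () := fun R _ _ _ =>
  ⟨Algebra.ofId K R, rfl, fun f _ => Subsingleton.elim _ _⟩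

instance : Rp (pnt K) := ⟨K, _, _, (), inferInstance, rep_pnt⟩

/-- the line over the point -/
def isoA1 : Iso (pnt K).line (A1 K) where
  hom x := x.2
  inv y := ((), y)
  inv_hom _ := rfl
  hom_inv _ := rfl
  nat _ _ := rfl

/-- the line over the line -/
def isoA2 : Iso (A1 K).line (A2 K) where
  hom x := (x.1, x.2)
  inv y := (y.1, y.2)
  inv_hom _ := rfl
  hom_inv _ := rfl
  nat _ _ := rfl

/-- the line over the plane -/
def isoA3 : Iso (A2 K).line (A3 K) where
  hom x := (x.1.1, x.1.2, x.2)
  inv y := ((y.1, y.2.1), y.2.2)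
  inv_hom _ := rfl
  hom_inv _ := rfl
  nat _ _ := rfl

instance : Rp (A1 K) := Rp.iso isoA1
instance : Rp (A2 K) := Rp.iso isoA2
instance : Rp (A3 K) := Rp.iso isoA3

theorem mem_pnt (hG : GOps K G) : (pnt K).Mem G := Mem.of_rep hG.toKOps rep_pnt hG.one

theorem mem_A1 (hG : GOps K G) : (A1 K).Mem G :=
  Mem.of_iso isoA1.symm (Mem.line hG.toKOps (mem_pnt hG))

theorem mem_A2 (hG : GOps K G) : (A2 K).Mem G :=
  Mem.of_iso isoA2.symm (Mem.line hG.toKOps (mem_A1 hG))

theorem mem_A3 (hG : GOps K G) : (A3 K).Mem G :=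
  Mem.of_iso isoA3.symm (Mem.line hG.toKOps (mem_A2 hG))

end Pool.Agent.Helper29.CQ
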