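import Pool.Agent.Helper29.CQ.Split

/-!
# Double planes branched along `Q² = l l' Q'`: the theorem
-/

set_option autoImplicit false

namespace Pool.Agent.Helper29.CQ

open Pool.Agent.Helper65.CC Pool.Agent.Helper87.CC Pool.Agent.Helper65.CC.KFn
open Polynomial

variable {K : Type} [Field K] {G : ∀ (R : Type) [CommRing R] [Algebra K R], Prop}

/-- the product of two linear forms -/
def nn (l l' : Fin 3 → K) : Fin 6 → K :=
  ![l 0 * l' 0, l 0 * l' 1 + l 1 * l' 0, l 1 * l' 1, l 0 * l' 2 + l 2 * l' 0,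
    l 1 * l' 2 + l 2 * l' 1, l 2 * l' 2]

theorem nn_eq (l l' : Fin 3 → K) {R : Type} [CommRing R] [Algebra K R] (x y z : R) :
    qf (nn l l') x y z = lf l x y z * lf l' x y z := by
  simp only [qf, nn, lf, Matrix.cons_val, map_add, map_mul]
  ring

/-- the coefficients of the conic bundle `t² l l' - 2 t Q + Q'` -/
noncomputable def ww (q q' : Fin 6 → K) (l l' : Fin 3 → K) : Fin 6 → K[X] := fun i =>
  C (nn l l' i) * X ^ 2 - C (2 * q i) * X + C (q' i)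

theorem ww_con (q q' : Fin 6 → K) (l l' : Fin 3 → K) {R : Type} [CommRing R] [Algebra K R]
    (t x y : R) : con (aeval t (ww q q' l l' 0)) (aeval t (ww q q' l l' 1))
      (aeval t (ww q q' l l' 2)) (aeval t (ww q q' l l' 3)) (aeval t (ww q q' l l' 4))
      (aeval t (ww q q' l l' 5)) x y =
      t ^ 2 * (lf l x y 1 * lf l' x y 1) - 2 * t * qf q x y 1 + qf q' x y 1 := by
  rw [← nn_eq]
  have e : ∀ i, aeval t (ww q q' l l' i) = algebraMap K R (nn l l' i) * t ^ 2 -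
      2 * algebraMap K R (q i) * t + algebraMap K R (q' i) := by
    intro i
    simp only [ww, map_add, map_sub, map_mul, map_pow, aeval_X, aeval_C, map_ofNat]
  rw [e, e, e, e, e, e]
  simp only [con, qf]
  ring

/-- the double plane and the conic bundle -/
noncomputable def split_iso (c : ℕ → ℕ → K) (q q' : Fin 6 → K) (l l' : Fin 3 → K)
    (hF : ∀ (R : Type) [CommRing R] [Algebra K R] (x y : R),
      F4 c x y 1 = qf q x y 1 ^ 2 - lf l x y 1 * lf l' x y 1 * qf q' x y 1) :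
    Iso (((V c).opn (V.l c l)).opn (resO _ (V.l c l')))
      (((CBf (ww q q' l l')).opn (CBf.l _ l)).opn (resO _ (CBf.l _ l'))) where
  hom {R} _ _ x := ⟨⟨⟨((qf q x.1.1.1.1 x.1.1.1.2.1 1 - x.1.1.1.2.2) *
      (Ring.inverse (lf l x.1.1.1.1 x.1.1.1.2.1 1) * Ring.inverse (lf l' x.1.1.1.1 x.1.1.1.2.1 1)),
      x.1.1.1.1, x.1.1.1.2.1), by
      have h1 : x.1.1.1.2.2 ^ 2 - F4 c x.1.1.1.1 x.1.1.1.2.1 1 = 0 := x.1.1.2
      have h2 := mul_inv' (a := lf l x.1.1.1.1 x.1.1.1.2.1 1) x.1.2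
      have h3 := mul_inv' (a := lf l' x.1.1.1.1 x.1.1.1.2.1 1) x.2
      rw [hF] at h1
      refine (ww_con q q' l l' _ _ _).trans ?_
      set a := lf l x.1.1.1.1 x.1.1.1.2.1 1
      set b := lf l' x.1.1.1.1 x.1.1.1.2.1 1
      set a' := Ring.inverse a
      set b' := Ring.inverse b
      set Q := qf q x.1.1.1.1 x.1.1.1.2.1 1
      set Q' := qf q' x.1.1.1.1 x.1.1.1.2.1 1
      set u := x.1.1.1.2.2
      have h4 : (a * b) * (a' * b') = 1 := by linear_combination h2 * (b * b') + h3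
      linear_combination ((Q - u) ^ 2 * (a' * b') - Q' * ((a * b) * (a' * b') + 1) * 0 - Q') * h4 +
        (a' * b') * h1⟩, x.1.2⟩, x.2⟩
  inv {R} _ _ y := ⟨⟨⟨(y.1.1.1.2.1, y.1.1.1.2.2, qf q y.1.1.1.2.1 y.1.1.1.2.2 1 -
      y.1.1.1.1 * (lf l y.1.1.1.2.1 y.1.1.1.2.2 1 * lf l' y.1.1.1.2.1 y.1.1.1.2.2 1)), by
      have h1 := (ww_con q q' l l' y.1.1.1.1 y.1.1.1.2.1 y.1.1.1.2.2).symm.trans y.1.1.2
      change (qf q y.1.1.1.2.1 y.1.1.1.2.2 1 - y.1.1.1.1 * (lf l y.1.1.1.2.1 y.1.1.1.2.2 1 *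
        lf l' y.1.1.1.2.1 y.1.1.1.2.2 1)) ^ 2 - F4 c y.1.1.1.2.1 y.1.1.1.2.2 1 = 0
      rw [hF]
      linear_combination (lf l y.1.1.1.2.1 y.1.1.1.2.2 1 * lf l' y.1.1.1.2.1 y.1.1.1.2.2 1) * h1⟩,
      y.1.2⟩, y.2⟩
  inv_hom {R} _ _ x := by
    have h2 := mul_inv' (a := lf l x.1.1.1.1 x.1.1.1.2.1 1) x.1.2
    have h3 := mul_inv' (a := lf l' x.1.1.1.1 x.1.1.1.2.1 1) x.2
    refine Subtype.ext (Subtype.ext (Subtype.ext (Prod.ext rfl (Prod.ext rfl ?_))))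
    change qf q x.1.1.1.1 x.1.1.1.2.1 1 - (qf q x.1.1.1.1 x.1.1.1.2.1 1 - x.1.1.1.2.2) *
      (Ring.inverse (lf l x.1.1.1.1 x.1.1.1.2.1 1) * Ring.inverse (lf l' x.1.1.1.1 x.1.1.1.2.1 1)) *
      (lf l x.1.1.1.1 x.1.1.1.2.1 1 * lf l' x.1.1.1.1 x.1.1.1.2.1 1) = x.1.1.1.2.2
    set a := lf l x.1.1.1.1 x.1.1.1.2.1 1
    set b := lf l' x.1.1.1.1 x.1.1.1.2.1 1
    have h4 : (a * b) * (Ring.inverse a * Ring.inverse b) = 1 := by
      linear_combination h2 * (b * Ring.inverse b) + h3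
    linear_combination (-(qf q x.1.1.1.1 x.1.1.1.2.1 1 - x.1.1.1.2.2)) * h4
  hom_inv {R} _ _ y := by
    have h2 := mul_inv' (a := lf l y.1.1.1.2.1 y.1.1.1.2.2 1) y.1.2
    have h3 := mul_inv' (a := lf l' y.1.1.1.2.1 y.1.1.1.2.2 1) y.2
    refine Subtype.ext (Subtype.ext (Subtype.ext (Prod.ext ?_ rfl)))
    change (qf q y.1.1.1.2.1 y.1.1.1.2.2 1 - (qf q y.1.1.1.2.1 y.1.1.1.2.2 1 -
      y.1.1.1.1 * (lf l y.1.1.1.2.1 y.1.1.1.2.2 1 * lf l' y.1.1.1.2.1 y.1.1.1.2.2 1))) *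
      (Ring.inverse (lf l y.1.1.1.2.1 y.1.1.1.2.2 1) *
        Ring.inverse (lf l' y.1.1.1.2.1 y.1.1.1.2.2 1)) = y.1.1.1.1
    set a := lf l y.1.1.1.2.1 y.1.1.1.2.2 1
    set b := lf l' y.1.1.1.2.1 y.1.1.1.2.2 1
    have h4 : (a * b) * (Ring.inverse a * Ring.inverse b) = 1 := by
      linear_combination h2 * (b * Ring.inverse b) + h3
    linear_combination y.1.1.1.1 * h4
  nat {R S} _ _ _ _ f x := by
    refine Subtype.ext (Subtype.ext (Subtype.ext (Prod.ext ?_ rfl)))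
    have h2 := inv_nat f (a := lf l x.1.1.1.1 x.1.1.1.2.1 1) x.1.2
    have h3 := inv_nat f (a := lf l' x.1.1.1.1 x.1.1.1.2.1 1) x.2
    rw [lf_map, map_one] at h2 h3
    change f ((qf q x.1.1.1.1 x.1.1.1.2.1 1 - x.1.1.1.2.2) *
      (Ring.inverse (lf l x.1.1.1.1 x.1.1.1.2.1 1) *
        Ring.inverse (lf l' x.1.1.1.1 x.1.1.1.2.1 1))) =
      (qf q (f x.1.1.1.1) (f x.1.1.1.2.1) 1 - f x.1.1.1.2.2) *
      (Ring.inverse (lf l (f x.1.1.1.1) (f x.1.1.1.2.1) 1) *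
        Ring.inverse (lf l' (f x.1.1.1.1) (f x.1.1.1.2.1) 1))
    rw [map_mul, map_sub, map_mul, h2, h3, qf_map, map_one]

theorem V_of_W [IsAlgClosed K] (hG : GOps K G) (c : ℕ → ℕ → K) (q q' : Fin 6 → K)
    (l l' : Fin 3 → K) (hl : ∃ i j, l i * l' j - l j * l' i ≠ 0)
    (hF : ∀ (R : Type) [CommRing R] [Algebra K R] (x y : R),
      F4 c x y 1 = qf q x y 1 ^ 2 - lf l x y 1 * lf l' x y 1 * qf q' x y 1)
    (hW : (CBf (ww q q' l l')).Mem G) : (V c).Mem G := by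
  have hl0 : ∃ i, l i ≠ 0 := by
    obtain ⟨i, j, hij⟩ := hl
    by_contra h
    push Not at h
    exact hij (by rw [h, h, zero_mul, zero_mul, sub_zero])
  have hl0' : ∃ i, l' i ≠ 0 := by
    obtain ⟨i, j, hij⟩ := hl
    by_contra h
    push Not at h
    exact hij (by rw [h, h, mul_zero, mul_zero, sub_zero])
  have hF1 : ∀ (R : Type) [CommRing R] [Algebra K R] (x y : R), lf l x y 1 = 0 →
      F4 c x y 1 = qf q x y 1 ^ 2 := by
    intro R _ _ x y h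
    rw [hF, h]
    ring
  have hF2 : ∀ (R : Type) [CommRing R] [Algebra K R] (x y : R), lf l' x y 1 = 0 →
      F4 c x y 1 = qf q x y 1 ^ 2 := by
    intro R _ _ x y h
    rw [hF, h]
    ring
  have hW1 : ∀ (R : Type) [CommRing R] [Algebra K R] (t x y : R), lf l x y 1 = 0 →
      con (aeval t (ww q q' l l' 0)) (aeval t (ww q q' l l' 1)) (aeval t (ww q q' l l' 2))
        (aeval t (ww q q' l l' 3)) (aeval t (ww q q' l l' 4)) (aeval t (ww q q' l l' 5)) x y =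
        -2 * t * qf q x y 1 + qf q' x y 1 := by
    intro R _ _ t x y h
    rw [ww_con, h]
    ring
  have hW2 : ∀ (R : Type) [CommRing R] [Algebra K R] (t x y : R), lf l' x y 1 = 0 →
      con (aeval t (ww q q' l l' 0)) (aeval t (ww q q' l l' 1)) (aeval t (ww q q' l l' 2))
        (aeval t (ww q q' l l' 3)) (aeval t (ww q q' l l' 4)) (aeval t (ww q q' l l' 5)) x y =
        -2 * t * qf q x y 1 + qf q' x y 1 := by
    intro R _ _ t x y h
    rw [ww_con, h]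
    ring
  refine Mem.glue hG.toKOps (V.l c l) ?_ (V.stratum hG c l hl0 q hF1)
  refine Mem.glue hG.toKOps (resO _ (V.l c l')) ?_
    (mem_opn_cls hG.toKOps _ _ (V.stratum hG c l' hl0' q hF2) (V.stratum2 hG c l' l hl q hF2))
  refine Mem.of_iso (split_iso c q q' l l' hF) ?_
  refine mem_opn hG.toKOps _ (mem_opn hG.toKOps _ hW (CBf.stratum hG _ l hl0 q q' hW1)) ?_
  exact mem_opn_cls hG.toKOps _ _ (CBf.stratum hG _ l' hl0' q q' hW2)
    (CBf.stratum2 hG _ l' l hl q q' hW2)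

end Pool.Agent.Helper29.CQ
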