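import Pool.Agent.Helper29.CQ.Curve

/-!
# Double planes
-/

set_option autoImplicit false

namespace Pool.Agent.Helper29.CQ

open Pool.Agent.Helper65.CC Pool.Agent.Helper87.CC Pool.Agent.Helper65.CC.KFn
open Polynomial

variable {K : Type} [Field K] {G : ∀ (R : Type) [CommRing R] [Algebra K R], Prop}

theorem F4_map {R S : Type} [CommRing R] [Algebra K R] [CommRing S] [Algebra K S]
    (c : ℕ → ℕ → K) (f : R →ₐ[K] S) (x y z : R) : f (F4 c x y z) = F4 c (f x) (f y) (f z) := by
  simp [F4]

/-- the double plane `u ^ 2 = F(x, y)` of a polynomial of degree at most four -/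
def V (c : ℕ → ℕ → K) : KFn K :=
  (A3 K).cls ⟨fun x => x.2.2 ^ 2 - F4 c x.1 x.2.1 1, fun f x => by
    rw [map_sub, map_pow, F4_map, map_one]
    rfl⟩

instance (c : ℕ → ℕ → K) : Rp (V c) := by
  unfold V
  infer_instance

/-- the leading form of `F` -/
def lead (c : ℕ → ℕ → K) : Fin 5 → K := fun i => c i (4 - i)

/-- the polynomial with the coefficients `c` is invariant under the translations with some
direction -/
def Cyl' (c : ℕ → ℕ → K) : Prop :=
  ∃ q₀ q₁ : K, (q₀ ≠ 0 ∨ q₁ ≠ 0) ∧ ∀ (R : Type) [CommRing R] [Algebra K R] (x y t : R),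
    F4 c (x + t * algebraMap K R q₀) (y + t * algebraMap K R q₁) 1 = F4 c x y 1

end Pool.Agent.Helper29.CQ
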