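import Pool.Agent.Helper29.CQ.Strata
import Pool.Agent.Helper71.CQ.Decomp

/-!
# Double planes branched along `Q² = l l' Q'`
-/

set_option autoImplicit false

namespace Pool.Agent.Helper29.CQ

open Pool.Agent.Helper65.CC Pool.Agent.Helper87.CC Pool.Agent.Helper65.CC.KFn
open Polynomial

variable {K : Type} [Field K] {G : ∀ (R : Type) [CommRing R] [Algebra K R], Prop}

/-- the coordinate of the line -/
def A1.t (K : Type) [Field K] : Coord (A1 K) := ⟨fun x => x, fun _ _ => rfl⟩

theorem A1.fib (hG : GOps K G) (a : K) : ((A1 K).cls (subC (A1.t K) a)).Mem G := by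
  refine Mem.of_iso ?_ (mem_pnt hG)
  exact
    { hom := fun _ => ()
      inv := fun {R} _ _ _ => ⟨algebraMap K R a, sub_self _⟩
      inv_hom := fun {R} _ _ x => Subtype.ext (sub_eq_zero.1 x.2).symm
      hom_inv := fun _ => rfl
      nat := fun _ _ => rfl }

/-- linear correspondences -/
theorem Gam.lin [IsAlgClosed K] (hG : GOps K G) (b c : K[X]) : (Gam 0 b c).Mem G := by
  by_cases hb : b = 0
  · subst hb
    by_cases hc : c = 0
    · refine Mem.of_iso ?_ (mem_A2 hG)
      exact
        { hom := fun x => x.1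
          inv := fun {R} _ _ y => ⟨y, by
            change aeval y.1 (0 : K[X]) * y.2 ^ 2 + aeval y.1 (0 : K[X]) * y.2 + aeval y.1 c = 0
            rw [hc, map_zero]
            ring⟩
          inv_hom := fun _ => rfl
          hom_inv := fun _ => rfl
          nat := fun _ _ => rfl }
    · refine mem_fibres hG.toKOps _ _ (Gam.t 0 0 c) c hc rfl (Gam.fib hG 0 0 c) ?_
      refine Mem.of_trivial hG.toKOps fun A _ _ x => ?_
      have h1 : aeval x.1.1.1 (0 : K[X]) * x.1.1.2 ^ 2 + aeval x.1.1.1 (0 : K[X]) * x.1.1.2 +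
        aeval x.1.1.1 c = 0 := x.1.2
      have h2 : IsUnit (aeval x.1.1.1 c) := x.2
      rw [map_zero, zero_mul, zero_mul, zero_add, zero_add] at h1
      rw [h1] at h2
      exact subsingleton_of_zero_eq_one (isUnit_zero_iff.1 h2)
  · refine mem_fibres hG.toKOps _ _ (Gam.t 0 b c) b hb rfl (Gam.fib hG 0 b c) ?_
    refine Mem.of_iso (F' := (A1 K).opn (polyC (A1.t K) b)) ?_
      (mem_opn_poly hG.toKOps _ _ b hb (mem_A1 hG) (A1.fib hG))
    exact
      { hom := fun x => ⟨x.1.1.1, x.2⟩
        inv := fun {R} _ _ y => ⟨⟨(y.1, -aeval (show R from y.1) c *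
            Ring.inverse (aeval (show R from y.1) b)), by
            have h1 := mul_inv' (a := aeval (show R from y.1) b) y.2
            change aeval (show R from y.1) (0 : K[X]) * (-aeval (show R from y.1) c *
              Ring.inverse (aeval (show R from y.1) b)) ^ 2 + aeval (show R from y.1) b *
              (-aeval (show R from y.1) c * Ring.inverse (aeval (show R from y.1) b)) +
              aeval (show R from y.1) c = 0
            rw [map_zero]
            linear_combination (-aeval (show R from y.1) c) * h1⟩, y.2⟩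
        inv_hom := fun {R} _ _ x => by
          have h0 : IsUnit (aeval x.1.1.1 b) := x.2
          have h1 := mul_inv' h0
          have h2 : aeval x.1.1.1 (0 : K[X]) * x.1.1.2 ^ 2 + aeval x.1.1.1 b * x.1.1.2 +
            aeval x.1.1.1 c = 0 := x.1.2
          rw [map_zero] at h2
          refine Subtype.ext (Subtype.ext (Prod.ext rfl ?_))
          change -aeval x.1.1.1 c * Ring.inverse (aeval x.1.1.1 b) = x.1.1.2
          linear_combination (-Ring.inverse (aeval x.1.1.1 b)) * h2 + x.1.1.2 * h1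
        hom_inv := fun _ => rfl
        nat := fun _ _ => rfl }

theorem CBf.stratum_iso (w : Fin 6 → K[X]) (l : Fin 3 → K) (q q' : Fin 6 → K) {px py : K[X]}
    {α β : K} (hp : IsPar l px py α β)
    (hW : ∀ (R : Type) [CommRing R] [Algebra K R] (t x y : R), lf l x y 1 = 0 →
      con (aeval t (w 0)) (aeval t (w 1)) (aeval t (w 2)) (aeval t (w 3)) (aeval t (w 4))
        (aeval t (w 5)) x y = -2 * t * qf q x y 1 + qf q' x y 1) :
    ∃ e : Iso ((CBf w).cls (CBf.l w l)) (Gam 0 (-2 * qf q px py 1) (qf q' px py 1)),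
      ∀ (R : Type) [CommRing R] [Algebra K R] (m : Fin 3 → K)
        (x : ((CBf w).cls (CBf.l w l)).obj R),
        aeval (e.hom x).1.1 (lf m px py (1 : K[X])) = lf m x.1.1.2.1 x.1.1.2.2 1 := by
  have ev : ∀ (R : Type) [CommRing R] [Algebra K R] (s : R) (q : Fin 6 → K),
      aeval s (qf q px py (1 : K[X])) = qf q (aeval s px) (aeval s py) 1 := by
    intro R _ _ s q
    rw [qf_map, map_one]
  have key : ∀ (R : Type) [CommRing R] [Algebra K R] (s t : R),
      aeval s (0 : K[X]) * t ^ 2 + aeval s (-2 * qf q px py 1 : K[X]) * t +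
        aeval s (qf q' px py 1 : K[X]) =
      con (aeval t (w 0)) (aeval t (w 1)) (aeval t (w 2)) (aeval t (w 3)) (aeval t (w 4))
        (aeval t (w 5)) (aeval s px) (aeval s py) := by
    intro R _ _ s t
    rw [hW R t _ _ (hp.on R s), ← ev, ← ev, map_zero]
    simp only [map_mul, map_neg, map_ofNat]
    ring
  refine ⟨?_, ?_⟩
  · exact
      { hom := fun {R} _ _ x => ⟨(algebraMap K R α * x.1.1.2.1 + algebraMap K R β * x.1.1.2.2,
          x.1.1.1), by
          have h3 := hp.pt R _ _ x.2
          have h4 := key R (algebraMap K R α * x.1.1.2.1 + algebraMap K R β * x.1.1.2.2) x.1.1.1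
          rw [h3.1, h3.2] at h4
          exact h4.trans x.1.2⟩
        inv := fun {R} _ _ y => ⟨⟨(y.1.2, aeval y.1.1 px, aeval y.1.1 py),
          (key R y.1.1 y.1.2).symm.trans y.2⟩, hp.on R _⟩
        inv_hom := fun {R} _ _ x => by
          have h3 := hp.pt R _ _ x.2
          exact Subtype.ext (Subtype.ext (Prod.ext rfl (Prod.ext h3.1 h3.2)))
        hom_inv := fun {R} _ _ y => Subtype.ext (Prod.ext (hp.inv R _) rfl)
        nat := fun {R S} _ _ _ _ f x => Subtype.ext (Prod.ext (by
          change f (algebraMap K R α * x.1.1.2.1 + algebraMap K R β * x.1.1.2.2) =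
            algebraMap K S α * f x.1.1.2.1 + algebraMap K S β * f x.1.1.2.2
          rw [map_add, map_mul, map_mul, AlgHom.commutes, AlgHom.commutes]) rfl) }
  · intro R _ _ m x
    have h3 := hp.pt R _ _ x.2
    change aeval (algebraMap K R α * x.1.1.2.1 + algebraMap K R β * x.1.1.2.2)
      (lf m px py (1 : K[X])) = _
    rw [lf_map, h3.1, h3.2, map_one]

theorem CBf.stratum [IsAlgClosed K] (hG : GOps K G) (w : Fin 6 → K[X]) (l : Fin 3 → K)
    (hl : ∃ i, l i ≠ 0) (q q' : Fin 6 → K)
    (hW : ∀ (R : Type) [CommRing R] [Algebra K R] (t x y : R), lf l x y 1 = 0 →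
      con (aeval t (w 0)) (aeval t (w 1)) (aeval t (w 2)) (aeval t (w 3)) (aeval t (w 4))
        (aeval t (w 5)) x y = -2 * t * qf q x y 1 + qf q' x y 1) :
    ((CBf w).cls (CBf.l w l)).Mem G := by
  by_cases h : l 0 ≠ 0 ∨ l 1 ≠ 0
  · obtain ⟨px, py, α, β, hp⟩ := exists_par l h
    obtain ⟨e, -⟩ := CBf.stratum_iso w l q q' hp hW
    exact Mem.of_iso e (Gam.lin hG _ _)
  · push Not at h
    have h2 : l 2 ≠ 0 := by
      obtain ⟨i, hi⟩ := hl
      fin_cases i
      · exact absurd h.1 hi
      · exact absurd h.2 hi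
      · exact hi
    refine Mem.of_trivial hG.toKOps fun A _ _ x => ?_
    have h3 : lf l x.1.1.2.1 x.1.1.2.2 1 = 0 := x.2
    rw [lf, h.1, h.2, map_zero, zero_mul, zero_mul, zero_add, zero_add, mul_one] at h3
    have h4 := unit_const (R := A) h2
    rw [h3] at h4
    exact subsingleton_of_zero_eq_one (isUnit_zero_iff.1 h4)

theorem CBf.stratum2 [IsAlgClosed K] (hG : GOps K G) (w : Fin 6 → K[X]) (l m : Fin 3 → K)
    (hl : ∃ i j, m i * l j - m j * l i ≠ 0) (q q' : Fin 6 → K)
    (hW : ∀ (R : Type) [CommRing R] [Algebra K R] (t x y : R), lf l x y 1 = 0 →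
      con (aeval t (w 0)) (aeval t (w 1)) (aeval t (w 2)) (aeval t (w 3)) (aeval t (w 4))
        (aeval t (w 5)) x y = -2 * t * qf q x y 1 + qf q' x y 1) :
    (((CBf w).cls (CBf.l w l)).cls (resC _ (CBf.l w m))).Mem G := by
  by_cases h : l 0 ≠ 0 ∨ l 1 ≠ 0
  · obtain ⟨px, py, α, β, hp⟩ := exists_par l h
    obtain ⟨e, he⟩ := CBf.stratum_iso w l q q' hp hW
    have hne : lf m px py (1 : K[X]) ≠ 0 := by
      intro h0
      obtain ⟨i, j, hij⟩ := hl
      exact hij (hp.ne m h0 i j)
    refine Mem.of_iso (F' := (Gam 0 (-2 * qf q px py 1) (qf q' px py 1)).cls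
      (polyC (Gam.t _ _ _) (lf m px py 1))) ?_
      (mem_cls_poly hG.toKOps _ _ _ hne (Gam.fib hG _ _ _))
    exact
      { hom := fun {R} _ _ x => ⟨e.hom x.1, (he R m x.1).trans x.2⟩
        inv := fun {R} _ _ y => ⟨e.inv y.1, by
          have h1 := he R m (e.inv y.1)
          rw [e.hom_inv] at h1
          exact h1.symm.trans y.2⟩
        inv_hom := fun {R} _ _ x => Subtype.ext (e.inv_hom x.1)
        hom_inv := fun {R} _ _ y => Subtype.ext (e.hom_inv y.1)
        nat := fun {R S} _ _ _ _ f x => Subtype.ext (e.nat f x.1) }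
  · push Not at h
    have h2 : l 2 ≠ 0 := by
      obtain ⟨i, j, hij⟩ := hl
      intro h2
      have h3 : ∀ i, l i = 0 := by
        intro i
        fin_cases i
        · exact h.1
        · exact h.2
        · exact h2
      apply hij
      rw [h3, h3, mul_zero, mul_zero, sub_zero]
    refine Mem.of_trivial hG.toKOps fun A _ _ x => ?_
    have h3 : lf l x.1.1.1.2.1 x.1.1.1.2.2 1 = 0 := x.1.2
    rw [lf, h.1, h.2, map_zero, zero_mul, zero_mul, zero_add, zero_add, mul_one] at h3
    have h4 := unit_const (R := A) h2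
    rw [h3] at h4
    exact subsingleton_of_zero_eq_one (isUnit_zero_iff.1 h4)

/-- exchanging open and closed conditions -/
theorem mem_opn_cls (hG : KOps K G) {F : KFn K} [Rp F] (u v : Coord F)
    (h1 : (F.cls v).Mem G) (h2 : ((F.cls v).cls (resC _ u)).Mem G) :
    ((F.opn u).cls (resO _ v)).Mem G := by
  refine Mem.of_iso (F' := (F.cls v).opn (resC _ u)) ?_ (mem_opn hG _ h1 h2)
  exact
    { hom := fun x => ⟨⟨x.1.1, x.2⟩, x.1.2⟩
      inv := fun x => ⟨⟨x.1.1, x.2⟩, x.1.2⟩
      inv_hom := fun _ => rfl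
      hom_inv := fun _ => rfl
      nat := fun _ _ => rfl }

end Pool.Agent.Helper29.CQ
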