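import Pool.Agent.Helper29.CQ.Corr
import Pool.Agent.Helper29.CQ.Bundle
import Pool.Agent.Helper29.CQ.Degen

/-!
# Strata over lines in the plane
-/

set_option autoImplicit false

namespace Pool.Agent.Helper29.CQ

open Pool.Agent.Helper65.CC Pool.Agent.Helper87.CC Pool.Agent.Helper65.CC.KFn
open Polynomial

variable {K : Type} [Field K] {G : ∀ (R : Type) [CommRing R] [Algebra K R], Prop}

theorem lf_map {R S : Type} [CommRing R] [Algebra K R] [CommRing S] [Algebra K S]
    (l : Fin 3 → K) (f : R →ₐ[K] S) (x y z : R) : f (lf l x y z) = lf l (f x) (f y) (f z) := by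
  simp [lf]

theorem qf_map {R S : Type} [CommRing R] [Algebra K R] [CommRing S] [Algebra K S]
    (q : Fin 6 → K) (f : R →ₐ[K] S) (x y z : R) : f (qf q x y z) = qf q (f x) (f y) (f z) := by
  simp [qf]

/-- a parametrisation of the line `l = 0` in the affine plane -/
structure IsPar (l : Fin 3 → K) (px py : K[X]) (α β : K) : Prop where
  on : ∀ (R : Type) [CommRing R] [Algebra K R] (s : R), lf l (aeval s px) (aeval s py) 1 = 0
  inv : ∀ (R : Type) [CommRing R] [Algebra K R] (s : R),
    algebraMap K R α * aeval s px + algebraMap K R β * aeval s py = s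
  pt : ∀ (R : Type) [CommRing R] [Algebra K R] (x y : R), lf l x y 1 = 0 →
    aeval (algebraMap K R α * x + algebraMap K R β * y) px = x ∧
      aeval (algebraMap K R α * x + algebraMap K R β * y) py = y
  ne : ∀ m : Fin 3 → K, lf m px py (1 : K[X]) = 0 → ∀ i j, m i * l j - m j * l i = 0

theorem exists_par (l : Fin 3 → K) (h : l 0 ≠ 0 ∨ l 1 ≠ 0) :
    ∃ (px py : K[X]) (α β : K), IsPar l px py α β := by
  by_cases h0 : l 0 = 0
  · have h1 : l 1 ≠ 0 := h.resolve_left (fun h => h h0)
    have e1 : ∀ (R : Type) [CommRing R] [Algebra K R],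
        algebraMap K R (l 1) * algebraMap K R (l 1)⁻¹ = 1 := fun R _ _ => by
      rw [← map_mul, mul_inv_cancel₀ h1, map_one]
    refine ⟨X, C (-(l 1)⁻¹ * l 2), 1, 0, ⟨?_, ?_, ?_, ?_⟩⟩
    · intro R _ _ s
      rw [lf, h0]
      simp only [aeval_X, aeval_C, map_mul, map_neg, map_zero]
      linear_combination (-algebraMap K R (l 2)) * e1 R
    · intro R _ _ s
      simp
    · intro R _ _ x y hxy
      rw [lf, h0] at hxy
      simp only [map_one, one_mul, map_zero, zero_mul, add_zero, aeval_X, aeval_C, map_mul, map_neg,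
        true_and]
      simp only [map_zero, zero_mul, zero_add, mul_one] at hxy
      linear_combination (-algebraMap K R (l 1)⁻¹) * hxy + y * e1 R
    · intro m hm
      have h3 := congrArg (fun p => coeff p 1) hm
      have h4 := congrArg (fun p => coeff p 0) hm
      simp [lf, Polynomial.algebraMap_eq, coeff_X] at h3 h4
      have h5 : m 1 * l 2 = m 2 * l 1 := by
        have h6 : m 1 * (-(l 1)⁻¹ * l 2) + m 2 = 0 := by
          rw [← h4]
          ring
        have h7 : (l 1)⁻¹ * l 1 = 1 := inv_mul_cancel₀ h1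
        linear_combination (-l 1) * h6 - m 1 * l 2 * h7
      intro i j
      fin_cases i <;> fin_cases j <;> simp [h0, h3] <;>
        first | linear_combination h5 | linear_combination (-1) * h5
  · have e1 : ∀ (R : Type) [CommRing R] [Algebra K R],
        algebraMap K R (l 0) * algebraMap K R (l 0)⁻¹ = 1 := fun R _ _ => by
      rw [← map_mul, mul_inv_cancel₀ h0, map_one]
    refine ⟨C (-(l 0)⁻¹ * l 1) * X + C (-(l 0)⁻¹ * l 2), X, 0, 1, ⟨?_, ?_, ?_, ?_⟩⟩
    · intro R _ _ s
      rw [lf]
      simp only [aeval_X, aeval_C, map_mul, map_neg, map_add]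
      linear_combination (-algebraMap K R (l 1) * s - algebraMap K R (l 2)) * e1 R
    · intro R _ _ s
      simp
    · intro R _ _ x y hxy
      rw [lf] at hxy
      simp only [map_one, one_mul, map_zero, zero_mul, zero_add, aeval_X, aeval_C, map_mul, map_neg,
        and_true, map_add]
      simp only [mul_one] at hxy
      linear_combination (-algebraMap K R (l 0)⁻¹) * hxy + x * e1 R
    · intro m hm
      have h3 := congrArg (fun p => coeff p 1) hm
      have h4 := congrArg (fun p => coeff p 0) hm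
      simp [lf, Polynomial.algebraMap_eq, coeff_X] at h3 h4
      have h7 : (l 0)⁻¹ * l 0 = 1 := inv_mul_cancel₀ h0
      have h5 : m 1 = m 0 * (l 0)⁻¹ * l 1 := by linear_combination h3
      have h6 : m 2 = m 0 * (l 0)⁻¹ * l 2 := by linear_combination h4
      intro i j
      fin_cases i <;> fin_cases j <;> simp [h5, h6] <;>
        first
        | ring1
        | linear_combination (m 0 * l 1) * h7
        | linear_combination (-m 0 * l 1) * h7
        | linear_combination (m 0 * l 2) * h7
        | linear_combination (-m 0 * l 2) * h7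

/-- the linear function on the double plane -/
def V.l (c : ℕ → ℕ → K) (l : Fin 3 → K) : Coord (V c) where
  val x := lf l x.1.1 x.1.2.1 1
  nat f x := by
    rw [lf_map, map_one]
    rfl

/-- the linear function on the conic bundle -/
noncomputable def CBf.l (q : Fin 6 → K[X]) (l : Fin 3 → K) : Coord (CBf q) where
  val x := lf l x.1.2.1 x.1.2.2 1
  nat f x := by
    rw [lf_map, map_one]
    rfl

theorem V.stratum_iso (c : ℕ → ℕ → K) (l : Fin 3 → K) (q : Fin 6 → K) {px py : K[X]} {α β : K}
    (hp : IsPar l px py α β)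
    (hF : ∀ (R : Type) [CommRing R] [Algebra K R] (x y : R), lf l x y 1 = 0 →
      F4 c x y 1 = qf q x y 1 ^ 2) :
    ∃ e : Iso ((V c).cls (V.l c l)) (BC (qf q px py 1 ^ 2)),
      ∀ (R : Type) [CommRing R] [Algebra K R] (m : Fin 3 → K) (x : ((V c).cls (V.l c l)).obj R),
        aeval (e.hom x).1.1 (lf m px py (1 : K[X])) = lf m x.1.1.1 x.1.1.2.1 1 := by
  have ev : ∀ (R : Type) [CommRing R] [Algebra K R] (s : R),
      aeval s (qf q px py (1 : K[X])) = qf q (aeval s px) (aeval s py) 1 := by
    intro R _ _ s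
    rw [qf_map, map_one]
  refine ⟨?_, ?_⟩
  · exact
      { hom := fun {R} _ _ x => ⟨(algebraMap K R α * x.1.1.1 + algebraMap K R β * x.1.1.2.1,
          x.1.1.2.2), by
          have h1 : x.1.1.2.2 ^ 2 - F4 c x.1.1.1 x.1.1.2.1 1 = 0 := x.1.2
          have h2 : lf l x.1.1.1 x.1.1.2.1 1 = 0 := x.2
          have h3 := hp.pt R _ _ h2
          change x.1.1.2.2 ^ 2 - aeval (algebraMap K R α * x.1.1.1 +
            algebraMap K R β * x.1.1.2.1) (qf q px py 1 ^ 2) = 0
          rw [map_pow, ev, h3.1, h3.2, ← hF R _ _ h2]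
          exact h1⟩
        inv := fun {R} _ _ y => ⟨⟨(aeval y.1.1 px, aeval y.1.1 py, y.1.2), by
          have h1 : y.1.2 ^ 2 - aeval y.1.1 (qf q px py 1 ^ 2) = 0 := y.2
          change y.1.2 ^ 2 - F4 c (aeval y.1.1 px) (aeval y.1.1 py) 1 = 0
          rw [hF R _ _ (hp.on R _), ← ev, ← map_pow]
          exact h1⟩, hp.on R _⟩
        inv_hom := fun {R} _ _ x => by
          have h3 := hp.pt R _ _ x.2
          exact Subtype.ext (Subtype.ext (Prod.ext h3.1 (Prod.ext h3.2 rfl)))
        hom_inv := fun {R} _ _ y => Subtype.ext (Prod.ext (hp.inv R _) rfl)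
        nat := fun {R S} _ _ _ _ f x => Subtype.ext (Prod.ext (by
          change f (algebraMap K R α * x.1.1.1 + algebraMap K R β * x.1.1.2.1) =
            algebraMap K S α * f x.1.1.1 + algebraMap K S β * f x.1.1.2.1
          rw [map_add, map_mul, map_mul, AlgHom.commutes, AlgHom.commutes]) rfl) }
  · intro R _ _ m x
    have h3 := hp.pt R _ _ x.2
    change aeval (algebraMap K R α * x.1.1.1 + algebraMap K R β * x.1.1.2.1)
      (lf m px py (1 : K[X])) = _
    rw [lf_map, h3.1, h3.2, map_one]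

theorem V.stratum [IsAlgClosed K] (hG : GOps K G) (c : ℕ → ℕ → K) (l : Fin 3 → K)
    (hl : ∃ i, l i ≠ 0) (q : Fin 6 → K)
    (hF : ∀ (R : Type) [CommRing R] [Algebra K R] (x y : R), lf l x y 1 = 0 →
      F4 c x y 1 = qf q x y 1 ^ 2) :
    ((V c).cls (V.l c l)).Mem G := by
  by_cases h : l 0 ≠ 0 ∨ l 1 ≠ 0
  · obtain ⟨px, py, α, β, hp⟩ := exists_par l h
    obtain ⟨e, -⟩ := V.stratum_iso c l q hp hF
    exact Mem.of_iso e (BC.square hG _)
  · push Not at h
    have h2 : l 2 ≠ 0 := by
      obtain ⟨i, hi⟩ := hl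
      fin_cases i
      · exact absurd h.1 hi
      · exact absurd h.2 hi
      · exact hi
    refine Mem.of_trivial hG.toKOps fun A _ _ x => ?_
    have h3 : lf l x.1.1.1 x.1.1.2.1 1 = 0 := x.2
    rw [lf, h.1, h.2, map_zero, zero_mul, zero_mul, zero_add, zero_add, mul_one] at h3
    have h4 := unit_const (R := A) h2
    rw [h3] at h4
    exact subsingleton_of_zero_eq_one (isUnit_zero_iff.1 h4)

theorem V.stratum2 [IsAlgClosed K] (hG : GOps K G) (c : ℕ → ℕ → K) (l m : Fin 3 → K)
    (hl : ∃ i j, m i * l j - m j * l i ≠ 0) (q : Fin 6 → K)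
    (hF : ∀ (R : Type) [CommRing R] [Algebra K R] (x y : R), lf l x y 1 = 0 →
      F4 c x y 1 = qf q x y 1 ^ 2) :
    (((V c).cls (V.l c l)).cls (resC _ (V.l c m))).Mem G := by
  by_cases h : l 0 ≠ 0 ∨ l 1 ≠ 0
  · obtain ⟨px, py, α, β, hp⟩ := exists_par l h
    obtain ⟨e, he⟩ := V.stratum_iso c l q hp hF
    have hne : lf m px py (1 : K[X]) ≠ 0 := by
      intro h0
      obtain ⟨i, j, hij⟩ := hl
      exact hij (hp.ne m h0 i j)
    refine Mem.of_iso (F' := (BC (qf q px py 1 ^ 2)).cls (polyC (BC.x _) (lf m px py 1))) ?_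
      (mem_cls_poly hG.toKOps _ _ _ hne (BC.fib hG _))
    exact
      { hom := fun {R} _ _ x => ⟨e.hom x.1, (he R m x.1).trans x.2⟩
        inv := fun {R} _ _ y => ⟨e.inv y.1, by
          have h1 := he R m (e.inv y.1)
          rw [e.hom_inv] at h1
          exact h1.symm.trans y.2⟩
        inv_hom := fun {R} _ _ x => Subtype.ext (e.inv_hom x.1)
        hom_inv := fun {R} _ _ y => Subtype.ext (e.hom_inv y.1)
        nat := fun {R S} _ _ _ _ f x => Subtype.ext (e.nat f x.1) }
  · push Not at h
    have h2 : l 2 ≠ 0 := by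
      obtain ⟨i, j, hij⟩ := hl
      intro h2
      have h3 : ∀ i, l i = 0 := by
        intro i
        fin_cases i
        · exact h.1
        · exact h.2
        · exact h2
      apply hij
      rw [h3, h3, mul_zero, mul_zero, sub_zero]
    refine Mem.of_trivial hG.toKOps fun A _ _ x => ?_
    have h3 : lf l x.1.1.1.1 x.1.1.1.2.1 1 = 0 := x.1.2
    rw [lf, h.1, h.2, map_zero, zero_mul, zero_mul, zero_add, zero_add, mul_one] at h3
    have h4 := unit_const (R := A) h2
    rw [h3] at h4
    exact subsingleton_of_zero_eq_one (isUnit_zero_iff.1 h4)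

end Pool.Agent.Helper29.CQ
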